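import Pool.Agent.Helper68.KP.StS
import Pool.Agent.Helper65.KPZ.St

/-!
# Project KP (MP_26be5b_ag), chapter R (equality case, part 2): statements

For every statement `StXXX` prove `theorem hXXX : StXXX` in `Pool/Agent/<You>/KP/M_XXX.lean`
(namespace `Pool.Agent.<You>.KP`); statements named in the docstring may be taken as hypotheses
(statements of `StS.lean` as well).
-/

set_option autoImplicit false

namespace Pool.Agent.Helper68.KP

open Pool.Agent.Helper52.KP Filter Topology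

/-- joint basis of `F k` and `W k` with almost the same jumps (`DIRC` says: for every `ε > 0` and all
large `k` there is a `W` with `DD`, `SA` and `JD E F W k ε`) -/
def JD {A : Type} [CommRing A] [Algebra ℂ A] {E : ℕ → Submodule ℂ A}
    (F : ℕ → ℕ → Submodule ℂ A) (W : ∀ k, E k →ₗ[ℂ] E k) (k : ℕ) (ε : ℝ) : Prop :=
  ∃ (N : ℕ) (b : Fin N → A) (lam : Fin N → ℕ) (mu : Fin N → ℝ), LinearIndependent ℂ b ∧
    (∀ l, F k l = Submodule.span ℂ (b '' {j | l ≤ lam j})) ∧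
    (∀ y, GW W k y = Submodule.span ℂ (b '' {j | y ≤ mu j})) ∧
    ∑ j, ((lam j : ℝ) - mu j) ^ 2 ≤ ε * (k : ℝ) ^ 2 * N

/-- all eigenvalues of the operator `T` are in `[a, b]` -/
def EB {A : Type} [CommRing A] [Algebra ℂ A] {V : Submodule ℂ A} (T : V →ₗ[ℂ] V) (a b : ℝ) :
    Prop := ∀ (e : V) (w : ℝ), e ≠ 0 → T e = (w : ℂ) • e → a ≤ w ∧ w ≤ b

/-- total weight -/
noncomputable def wA {A : Type} [CommRing A] [Algebra ℂ A] (F : ℕ → ℕ → Submodule ℂ A) (k : ℕ) :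
    ℝ := ∑ᶠ l : ℕ, (Module.finrank ℂ (F k (l + 1)) : ℝ)

/-- MODULE EGB (60 lines). Input: StEIG.
Proof. Induction on `k`. `W 0 1 = 0` (DD for `1 * 1 = 1`). `E (k+1)` is spanned by products of eigenvectors
of `E k` and of `E 1` (SG.gen, EIG), which are zero or eigenvectors of `W (k+1)` with eigenvalues in
`[(k+1) a, (k+1) b]` (DD). Eigenvectors for different eigenvalues are independent, so no other
eigenvalue occurs. (For `k = 0 → 1` nothing to do.) -/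
def StEGB : Prop := ∀ (A : Type) [CommRing A] [Algebra ℂ A] (E : ℕ → Submodule ℂ A)
  (ip : A → A → ℂ) (M : ℕ), SG E M → HF E ip →
  ∀ W : ∀ k, E k →ₗ[ℂ] E k, DD E W → SA ip W → ∀ a b : ℝ, EB (W 1) a b →
  ∀ k : ℕ, EB (W k) (k * a) (k * b)

/-- MODULE LOW (80 lines). Lowest components multiply. Input: StEIG.
Proof. Decompose `f = ∑_x f_x` into eigencomponents of `W k` (EIG), the same for `f'`. `f ∉ GW W k y` means
that the lowest eigenvalue `ω` with `f_ω ≠ 0` is `< y`; likewise `ω' < y'`. In `f f' = ∑ f_x f'_x'` the terms are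
in eigenspaces `x + x'` (DD) and the component for `ω + ω'` is `f_ω f'_ω' ≠ 0`. Elements of
`GW W (k+k') (y+y')` have no component for `ω + ω' < y + y'`. -/
def StLOW : Prop := ∀ (A : Type) [CommRing A] [IsDomain A] [Algebra ℂ A] (E : ℕ → Submodule ℂ A)
  (ip : A → A → ℂ) (M : ℕ), SG E M → HF E ip →
  ∀ W : ∀ k, E k →ₗ[ℂ] E k, DD E W → SA ip W → ∀ (k k' : ℕ) (f f' : A) (y y' : ℝ),
  f ∈ E k → f' ∈ E k' → f ∉ GW W k y → f' ∉ GW W k' y' → f * f' ∉ GW W (k + k') (y + y')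

/-- MODULE BDW (130 lines, strong). Boundedness. Inputs: StEIG, StEGB.
Proof. `k' = k / 4`, `i = k - k'`; `finrank (E k') ≥ c₀ finrank (E k)` for large `k` (`SG.grow`,
`c₀ = 5^{-M} / 2`); `ε = c₀ / 2`, `N = finrank (E k)`. As `0 ≤ lam_j ≤ Λ k` (`FF.bot`) and
`∑ (lam_j - mu_j)² ≤ ε k² N`, `mu_j ∈ [-k, (Λ+1) k]` for all but at most `ε N` indices. Let `w₊`, `w₋` be the
largest and the smallest eigenvalue of `W 1` with eigenvectors `e₊, e₋ ∈ E 1` (`E 1 ≠ 0` by growth). The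
subspace `e₊^i E k'` of `E k` has dimension `finrank (E k')` (domain) and is contained in
`GW W k (i w₊ + k' w₋)` (EGB), of dimension `#{j : mu_j ≥ i w₊ + k' w₋}`; this number is `> ε N`, so
`i w₊ + k' w₋ ≤ (Λ+1) k`. The subspace `e₋^i E k'` is contained in the sum of the eigenspaces with
eigenvalues `≤ i w₋ + k' w₊`, whose dimension is `#{j : mu_j ≤ i w₋ + k' w₊}` (complement of
`GW W k y` for `y` slightly larger); so `- k ≤ i w₋ + k' w₊`. Subtract: `(i - k') (w₊ - w₋) ≤ (Λ+2) k`, and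
`i - k' ≥ k / 3` gives `w₊ - w₋ ≤ 3 (Λ+2)`; then `k w₊ ≤ (Λ+1) k + 3 (Λ+2) k'`, `k w₋ ≥ - k - 3 (Λ+2) k'`. -/
def StBDW : Prop := ∀ (A : Type) [CommRing A] [IsDomain A] [Algebra ℂ A] (E : ℕ → Submodule ℂ A)
  (ip : A → A → ℂ) (M Λ : ℕ) (F : ℕ → ℕ → Submodule ℂ A), SG E M → HF E ip → FF E Λ F →
  ∃ (ε C : ℝ) (k₀ : ℕ), 0 < ε ∧ ∀ k, k₀ ≤ k → ∀ W : ∀ k, E k →ₗ[ℂ] E k, DD E W → SA ip W →
    JD F W k ε → EB (W 1) (-C) C

/-- MODULE LIM (160 lines, strong). Compactness. Inputs: StONB, StEIG.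
Proof. In the coordinates of ONB on `E 1` the matrices of the `W n 1` are Hermitian with eigenvalues in
`[-C, C]`, so bounded; a subsequence `φ` converges. For `k ≥ 1`, `E k` is spanned by products
`f_1 ⋯ f_k`, `f_i ∈ E 1` (SG.gen), and `W n k (f_1 ⋯ f_k) = ∑ f_1 ⋯ W n 1 f_i ⋯ f_k` (DD) converges in the
finite-dimensional space `E k` (multiplication is continuous: bilinear on finite-dimensional
spaces); so the matrices of `W (φ n) k` converge for every `k` (`k = 0`: `W n 0 = 0`), and the limit `W'`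
satisfies DD and SA. CLOSEDNESS: let `f ∈ GW (W (φ n)) k (y - δ)` for large `n`. In coordinates
(Hermitian matrices `B_n → B`) `‖exp (-t B_n) f‖ ≤ e^{-t (y - δ)} ‖f‖` for `t ≥ 0` (eigenbasis), so the same for
`B`; if `x` is an eigenvalue of `B` with component `f_x ≠ 0` then `e^{-t x} ‖f_x‖ ≤ e^{-t (y-δ)} ‖f‖` for all `t`, so
`x ≥ y - δ`. This for all `δ > 0` gives `f ∈ GW W' k y`. Last claim: the eigenvalues of the difference are
at most its Hilbert-Schmidt norm. -/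
def StLIM : Prop := ∀ (A : Type) [CommRing A] [Algebra ℂ A] (E : ℕ → Submodule ℂ A)
  (ip : A → A → ℂ) (M : ℕ) (C : ℝ), SG E M → HF E ip →
  ∀ W : ℕ → ∀ k, E k →ₗ[ℂ] E k, (∀ n, DD E (W n) ∧ SA ip (W n) ∧ EB (W n 1) (-C) C) →
  ∃ (W' : ∀ k, E k →ₗ[ℂ] E k) (φ : ℕ → ℕ), StrictMono φ ∧ DD E W' ∧ SA ip W' ∧
    (∀ (k : ℕ) (f : A) (y : ℝ), f ∈ E k →
      (∀ δ : ℝ, 0 < δ → ∀ᶠ n in atTop, f ∈ GW (W (φ n)) k (y - δ)) → f ∈ GW W' k y) ∧
    ∀ δ : ℝ, 0 < δ → ∀ᶠ n in atTop, EB (W' 1 - W (φ n) 1) (-δ) δ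

/-- MODULE CTN (150 lines, STRONG). Containment. Inputs: StEIG, StEGB, StLOW.
Proof. We may assume `C ≥ 0`, `f ≠ 0`. If `k = 0`: `l = 0` (`FF.bot`), `f` is a constant, `W n 0 f = 0`,
`f ∈ GW (W n) 0 0`. Let `k ≥ 1`. Suppose `f ∉ GW (W n) k (l - δ)` for arbitrarily large `n`. Let `K = K n`,
`0 < η < 1` small, `m = ⌊(1 - η) K / k⌋`, `k' = K - m k`, so `η K ≤ k' ≤ η K + k`. The subspace
`V = f^m E k' ⊆ E K` has dimension `finrank (E k')` (domain), at least `c(η) finrank (E K)` for large `K`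
(`SG.grow`), while `#{j : |lam_j - mu_j| > η K} ≤ (ε n / η²) N`, which is smaller for large `n`. So
`V ∩ span {b_j : |lam_j - mu_j| ≤ η K}` contains a `v = f^m a ≠ 0`. As `a ∈ F k' 0`, `v ∈ F K (m l)`
(`FF.mul`), so (independence of `b`) `v ∈ span {b_j : lam_j ≥ m l, |lam_j - mu_j| ≤ η K}
⊆ GW (W n) K (m l - η K)`. On the other hand `f^m ∉ GW (W n) (m k) (m (l - δ))` for `m ≥ 1` (LOW, induction) and
`a ∉ GW (W n) k' (C k' + 1) = ⊥` (EGB), so `v ∉ GW (W n) K (m (l - δ) + C k' + 1)` (LOW). `GW` is antitone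
in `y`, so `m l - η K < m (l - δ) + C k' + 1`, that is `m δ < η K + C (η K + k) + 1`, with
`m ≥ (1 - η) K / k - 1`: false for small `η` and large `K`. -/
def StCTN : Prop := ∀ (A : Type) [CommRing A] [IsDomain A] [Algebra ℂ A] (E : ℕ → Submodule ℂ A)
  (ip : A → A → ℂ) (M Λ : ℕ) (F : ℕ → ℕ → Submodule ℂ A) (C : ℝ), SG E M → HF E ip → FF E Λ F →
  ∀ (W : ℕ → ∀ k, E k →ₗ[ℂ] E k) (K : ℕ → ℕ) (ε : ℕ → ℝ), Tendsto K atTop atTop →
  Tendsto ε atTop (𝓝 0) →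
  (∀ n, DD E (W n) ∧ SA ip (W n) ∧ EB (W n 1) (-C) C ∧ JD F (W n) (K n) (ε n)) →
  ∀ (k l : ℕ) (f : A), f ∈ F k l → ∀ δ : ℝ, 0 < δ →
    ∀ᶠ n in atTop, f ∈ GW (W n) k ((l : ℝ) - δ)

/-- MODULE TOT (130 lines). Total weights. Inputs: StEIG, StEGB.
Proof. Let `K = K n` (large), `N = finrank (E K)`, `w_j` the eigenvalues of `W' K` (EIG); they are `≥ K ≥ 0`
because `E K = F K K ⊆ GW W' K K` (`FF.one`, `FF.mul`, `SG.gen`). `finrank (GW W' K (l+1)) = #{j : w_j ≥ l + 1}`, so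
`wA (GW W') K = ∑ ⌊w_j⌋ ≤ ∑ w_j = tr (W' K) = tr (W n K) + tr ((W' - W n) K)`. `W' - W n` satisfies DD, SA and
`EB _ (-δ') δ'` on `E 1`, so its eigenvalues on `E K` are at most `δ' K` (EGB) and its trace at most
`δ' K N`. `tr (W n K) = ∑ mu_j` (the multiset of the `mu_j` is that of the eigenvalues: same dimensions of
`GW`), and `∑ mu_j ≤ ∑ lam_j + (N ∑ (lam_j - mu_j)²)^{1/2} ≤ wA F K + √(ε n) K N`
(`∑ lam_j = ∑_{l ≥ 1} #{j : l ≤ lam_j}`). -/
def StTOT : Prop := ∀ (A : Type) [CommRing A] [IsDomain A] [Algebra ℂ A] (E : ℕ → Submodule ℂ A)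
  (ip : A → A → ℂ) (M Λ : ℕ) (F : ℕ → ℕ → Submodule ℂ A), SG E M → HF E ip → FF E Λ F →
  ∀ (W : ℕ → ∀ k, E k →ₗ[ℂ] E k) (K : ℕ → ℕ) (ε : ℕ → ℝ) (W' : ∀ k, E k →ₗ[ℂ] E k),
  Tendsto K atTop atTop → Tendsto ε atTop (𝓝 0) →
  (∀ n, DD E (W n) ∧ SA ip (W n) ∧ JD F (W n) (K n) (ε n)) → DD E W' → SA ip W' →
  (∀ δ : ℝ, 0 < δ → ∀ᶠ n in atTop, EB (W' 1 - W n 1) (-δ) δ) →
  (∀ k l, F k l ≤ GW W' k l) → ∀ δ : ℝ, 0 < δ → ∃ᶠ k : ℕ in atTop,
    wA (fun k l => GW W' k (l : ℝ)) k ≤ wA F k + δ * k * Module.finrank ℂ (E k)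

/-- MODULE GNN (160 lines, strong). Graded Noether normalization.
Proof. Let `r` be minimal such that there are `a_1, .., a_r ∈ V 1` with `D` integral over `ℂ[a]`
(a basis of `V 1` will do: `V` generates `D`). If the `a_i` were algebraically dependent: a relation
`P(a) = 0`, `P ≠ 0`, splits into its homogeneous parts (`iSupIndep V`, `a_i ∈ V 1`), so `P` may be taken
homogeneous of degree `e ≥ 1`; choose `c ∈ ℂ^{r-1}` with `P (c, 1) ≠ 0` (infinite field; if `P(·, 1) = 0` then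
`P = 0`) and `a'_i = a_i - c_i a_r`: the relation becomes a polynomial in `a_r` over `ℂ[a'_1, .., a'_{r-1}]` with
leading coefficient `P(c, 1)`, so `a_r` is integral over `ℂ[a'_1, .., a'_{r-1}]`, and so is `D`, a
contradiction. Growth: `D` is a finite module over `ℂ[a]`, generated by finitely many homogeneous
elements of degrees `≤ q`, so `(k+r-1 choose r-1) ≤ finrank (V k) ≤ s ((k + r - 1) choose (r-1))`
(monomials of degree `k` in the `a_i` are independent; `V k = ∑ ℂ[a]_{k - q_i} g_i`), hence `r - 1 = n`. -/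
def StGNN : Prop := ∀ (D : Type) [CommRing D] [IsDomain D] [Algebra ℂ D]
  (V : ℕ → Submodule ℂ D) (n : ℕ), (∀ k, FiniteDimensional ℂ (V k)) →
  V 0 = Submodule.span ℂ {1} →
  (∀ k, V (k + 1) = Submodule.span ℂ {b | ∃ f f', f ∈ V k ∧ f' ∈ V 1 ∧ b = f * f'}) →
  iSupIndep V → (⨆ k, V k) = ⊤ →
  (∃ c C : ℝ, 0 < c ∧ ∀ᶠ k : ℕ in atTop, c * (k : ℝ) ^ n ≤ Module.finrank ℂ (V k) ∧
    (Module.finrank ℂ (V k) : ℝ) ≤ C * (k : ℝ) ^ n) →
  ∃ a : Fin (n + 1) → D, (∀ i, a i ∈ V 1) ∧ AlgebraicIndependent ℂ a ∧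
    ∀ x : D, IsIntegral (Algebra.adjoin ℂ (Set.range a)) x

/-- MODULE RGA (200 lines, STRONG). Growth of a nonintegral extension.
Notation: `L` a field, `D ⊆ L` a subalgebra with fraction field `L`, graded (`V k`), integrally closed,
`a` as in GNN, `x ∈ L`, `x ∉ D`.
Proof. `P = ℂ[a]` (`≅ MvPolynomial (Fin (n+1)) ℂ`, a UFD). `L` is algebraic over `Frac P` (`D` integral over
`P`). `x ∉ D` is not integral over `D`, so not over `P`; so the minimal polynomial of `x` over `Frac P` has a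
coefficient outside `P` (`P` integrally closed) and there is an irreducible `g ∈ P` such that a
coefficient is outside `R = P_(g)` (a UFD is the intersection of these localizations: write the
coefficient as a reduced fraction, `g` a prime factor of the denominator). `R` is a discrete valuation
ring (`Localization.AtPrime`, prime ideal generated by `g`) and `x` is not integral over `R`. `S =` the
integral closure of `R` in `L` is a Dedekind domain with fraction field `L` (`L / Frac P` is finite and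
separable, characteristic `0`; finite because `D` is a finitely generated algebra, integral over `P`),
`x ∉ S`, so there is a height one prime `Q` of `S` with valuation `v(x) > 1`
(`IsDedekindDomain.HeightOneSpectrum.mem_integers_of_valuation_le_one`). `v ≤ 1` on `D` (`D` is
integral over `P ⊆ R`, so `D ⊆ S`), `v = 1` on `P \ (g)` (units of `R`). For `K` large, `1 ≤ i ≤ K / (2 k₀)` let
`T_i = {d ∈ U K : v(d) ≤ v(x)^i}` (`U` the given spaces): `V K ⊆ T_0 ⊆ T_1 ⊆ ..`, and `p ↦ x^i p` maps the degree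
`j = K - i k₀` part `P_j` of `P` to `T_i`; `x^i p ∈ T_{i-1}` implies `v(p) < 1`, so `p ∈ (g)`. Hence
`dim T_i / T_{i-1} ≥ dim P_j - dim (P_j ∩ (g)) ≥ dim P_j - dim P_{j-1} = (j + n - 1 choose n - 1)` (if a multiple
of `g` is homogeneous then `g` and the cofactor are homogeneous, `deg g ≥ 1`; so `P_j ∩ (g) = g P_{j - deg g}`
or `0`). Sum over `i`: at least `c K · K^{n-1}`. (For `n = 0`: not needed, assume `1 ≤ n`.) -/
def StRGA : Prop := ∀ (L : Type) [Field L] [Algebra ℂ L] (D : Subalgebra ℂ L)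
  (V : ℕ → Submodule ℂ L) (n : ℕ) (a : Fin (n + 1) → L), 1 ≤ n →
  (∀ k, V k ≤ D.toSubmodule) → (∀ k, FiniteDimensional ℂ (V k)) → iSupIndep V →
  (⨆ k, V k) = D.toSubmodule → V 0 = Submodule.span ℂ {1} →
  (∀ k k' f f', f ∈ V k → f' ∈ V k' → f * f' ∈ V (k + k')) → D.FG →
  (∀ y : L, ∃ u v : L, u ∈ D ∧ v ∈ D ∧ v ≠ 0 ∧ y = u / v) → (∀ y : L, IsIntegral D y → y ∈ D) →
  (∀ i, a i ∈ V 1) → AlgebraicIndependent ℂ a →
  (∀ y ∈ D, IsIntegral (Algebra.adjoin ℂ (Set.range a)) y) →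
  ∀ (x : L) (k₀ : ℕ), 0 < k₀ → x ∉ D → ∀ U : ℕ → Submodule ℂ L,
  (∀ k, FiniteDimensional ℂ (U k)) → (∀ k, V k ≤ U k) →
  (∀ i j, ∀ p ∈ V j, x ^ i * p ∈ U (i * k₀ + j)) →
  ∃ c : ℝ, 0 < c ∧ ∀ᶠ K : ℕ in atTop,
    c * (K : ℝ) ^ n ≤ (Module.finrank ℂ (U K) : ℝ) - Module.finrank ℂ (V K)

/-- MODULE RIG (130 lines). Rigidity. Inputs: StGNN, StRGA.
Proof. `B = adjoin {C f X^l : f ∈ F k l} ⊆ A[X]`, graded by `V k = ⊕_l F k l X^l` (`l ≤ Λ k`; independent because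
`E` is), `finrank (V k) = finrank (E k) + wA F k`; the jumps are between `k` and `Λ k`, so
`c k^{M+1} ≤ finrank (V k) ≤ C k^{M+1}`. `V (k+1) = V k * V 1` (`hgen`, and `V 1 = V 0 * V 1`). `L` = fraction field of
`A[X]` restricted to that of `B`: the subfield generated by `B`; `x = C f X^{l₀}` is in it
(`f ∈ E k₀ = F k₀ 0 ⊆ B`, and `X = (g X) / g`, `0 ≠ g ∈ E 1 = F 1 1`). GNN for `B`, then RGA with `n = M + 1`,
`U k = ⊕_l G k l X^l` (`finrank (U k) = finrank (E k) + wA G k` as `G k 0 = E k`), `x^i (V j) ⊆ U (i k₀ + j)`.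
`x ∉ B`: the coefficient of `X^{l₀}` in degree `k₀` of elements of `B` is in `F k₀ l₀`. `k₀ > 0`: for `k₀ = 0`
the element `f` is a nonzero constant, `l₀ ≥ 1` and `G 0 l₀ = ⊥`. -/
def StRIG : Prop := ∀ (A : Type) [CommRing A] [IsDomain A] [Algebra ℂ A]
  (E : ℕ → Submodule ℂ A) (M Λ : ℕ) (F : ℕ → ℕ → Submodule ℂ A), SG E M → FF E Λ F →
  iSupIndep E →
  (∀ k l, 0 < k → F (k + 1) l = Submodule.span ℂ
    {b | ∃ i j f f', i + j = l ∧ f ∈ F k i ∧ f' ∈ F 1 j ∧ b = f * f'}) →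
  IsIntegrallyClosed (Algebra.adjoin ℂ {b : Polynomial A |
    ∃ k l f, f ∈ F k l ∧ b = Polynomial.C f * Polynomial.X ^ l}) →
  ∀ (Λ' : ℕ) (G : ℕ → ℕ → Submodule ℂ A), FF E Λ' G → (∀ k l, F k l ≤ G k l) →
  ∀ (k₀ l₀ : ℕ) (f : A), f ∈ G k₀ l₀ → f ∉ F k₀ l₀ →
  ∃ c : ℝ, 0 < c ∧ ∀ᶠ K : ℕ in atTop, c * (K : ℝ) ^ (M + 1) ≤ wA G K - wA F K

/-- MODULE INT (110 lines). Integer weights. Inputs: StEIG.
Proof. `w` eigenvalue, `e ≠ 0` an eigenvector in `E k`: `w ≥ 0` (`E k = F k 0 = GW W k 0`). If `w` were not a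
natural number, let `l = ⌊w⌋₊`, `j` with `j (w - l) ≥ 1`: `e ∈ GW W k l = F k l`, `e ^ j ∈ E (j k)` is an
eigenvector with eigenvalue `j w ≥ j l + 1` (DD, induction), so `e ^ j ∈ F (j k) (j l + 1)` and `hrad`
gives `e ∈ F k (l+1) = GW W k (l+1)`, so `w ≥ l + 1`. `G k j = {e ∈ E k : W k e = j e}`: eigenspaces are
independent, their sum is `E k` (EIG), products: DD, `GW W k l = ⨆_{j ≥ l} G k j`. -/
def StINT : Prop := ∀ (A : Type) [CommRing A] [IsDomain A] [Algebra ℂ A]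
  (E : ℕ → Submodule ℂ A) (ip : A → A → ℂ) (M : ℕ) (F : ℕ → ℕ → Submodule ℂ A), SG E M →
  HF E ip → ∀ W : ∀ k, E k →ₗ[ℂ] E k, DD E W → SA ip W → (∀ k l, F k l = GW W k l) →
  (∀ k, F k 0 = E k) →
  (∀ k l j f, 0 < j → f ∈ F k l → f ^ j ∈ F (j * k) (j * l + 1) → f ∈ F k (l + 1)) →
  ∃ G : ℕ → ℕ → Submodule ℂ A, (∀ k, iSupIndep (G k)) ∧ (∀ k, ⨆ j, G k j = E k) ∧
    (∀ k j k' j' f f', f ∈ G k j → f' ∈ G k' j' → f * f' ∈ G (k + k') (j + j')) ∧
    ∀ k l, F k l = ⨆ (j : ℕ) (_ : l ≤ j), G k j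

/-- MODULE SGC (90 lines). The abstract structures for a `Good` cone. Input: StIPP.
Proof. `fd`, `mul` from `Good`; `EE C r 0 = C.R 0 =` constants (`cst`, `one`). `gen`: `NF.gen` with `l = 0`. `grow`:
`Good.dim` for `C.n * r * k`, `a = rd (n r)^{m-1} / (m-1)!`. `iSupIndep`: if `∑ f_k = 0` with `f_k ∈ R (n r k)`
then `∑ c^{n r k} f_k (z) = 0` for all `c` (`hom`), a polynomial in `c`; `n r > 0`. `FF.bot`: if `F 1 (Λ+1) = ⊥`
then `F k l = ⊥` for `l > Λ k` by `gen` (induction; `F 0 l = ⊥` for `l ≥ 1` by `sep0`, `anti`). -/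
def StSGC : Prop := StIPP → ∀ C : Cone, Good C → ∀ r F, NF C r F →
  SG (EE C r) (C.m - 1) ∧ HF (EE C r) (ipc C) ∧ iSupIndep (EE C r) ∧ ∃ Λ : ℕ, FF (EE C r) Λ F

/-- MODULE NFI (170 lines, strong). The image of a nice filtration under a graded automorphism.
Proof. All fields of `NF` except `normal` are direct (`σ` is bijective on every `EE C r k` and
multiplicative; `im σ F k l = {σ f : f ∈ F k l}`), and `im σ F k l ≅ F k l` gives the dimensions. `normal`: the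
algebra `B = adjoin {C f X^l : f ∈ F k l}` is `⊕_{k,l} F k l X^l` (independence of the `R (n r k)`, as in SGC); the
linear map `C f X^l ↦ C (σ f) X^l` extends to a ring isomorphism from `B` onto the algebra of `im σ F`
(define it on `⊕_k EE C r k ⊆ ℂ[z]`, a subalgebra, as an algebra automorphism, then on its polynomial
ring); `IsIntegrallyClosed.of_equiv`. -/
def StNFI : Prop := ∀ C : Cone, Good C → ∀ r F, NF C r F →
  ∀ σ : ∀ k, EE C r k →ₗ[ℂ] EE C r k, AU (EE C r) σ →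
  NF C r (im σ F) ∧ ∀ k l, Module.finrank ℂ (im σ F k l) = Module.finrank ℂ (F k l)

/-- MODULE FNR (120 lines). Assembly of chapters S, R (helper68). Inputs: all. -/
def StEQU : Prop := ∀ C : Cone, Good C → ∀ r F, NF C r F → ∀ a₀ a₁ b₀ b₁ : ℝ,
  Ex C r F a₀ a₁ b₀ b₁ → a₀ * b₁ = a₁ * b₀ → Rad C F → Pool.Agent.Helper65.KPZ.PF C r F

end Pool.Agent.Helper68.KP
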