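import Pool.Agent.Helper68.KP.M_CTN
import Pool.Agent.Helper75.KP.M_JEN
import Pool.Agent.Helper6.KP.M_UPR
import Pool.Agent.Helper80.KP.M_ORT
import Pool.Agent.Helper37.KP.M_PJZ
import Pool.Agent.Helper22.KP.M_COC
import Pool.Agent.Helper62.KP.M_HSL
import Pool.Agent.Helper99.KP.M_FLG
import Pool.Agent.Helper61.KP.M_DIR
import Pool.Agent.Helper34.KP.M_CAB
import Pool.Agent.Helper27.KP.M_SLP
import Pool.Agent.Helper2.KP.M_WEX
import Pool.Agent.Helper2.KP.M_ONB
import Pool.Agent.Helper16.KP.M_EIG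
import Pool.Agent.Helper9.KP.M_EXF
import Pool.Agent.Helper37.KP.M_LGF
import Pool.Agent.Helper85.KP.M_LVL
import Pool.Agent.Helper30.KP.M_EGB
import Pool.Agent.Helper91.KP.M_BDW
import Pool.Agent.Helper78.KP.M_LIM
import Pool.Agent.Helper41.KP.M_RGA
import Pool.Agent.Helper26.KP.M_INT
import Pool.Agent.Helper60.KP.M_SGC
import Pool.Agent.Helper33.KP.M_NFI
import Pool.Agent.Helper57.KP.M_LOW
import Pool.Agent.Helper13.KP.M_TOT
import Pool.Agent.Helper65.KP.M_GNN
import Pool.Agent.Helper92.KP.M_RIG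

/-!
# Project KP (MP_26be5b_ag), chapters S and R: all modules together
-/

set_option autoImplicit false

namespace Pool.Agent.Helper68.KP

theorem aJEN : StJEN := Pool.Agent.Helper75.KP.hJEN
theorem aUPR : StUPR := Pool.Agent.Helper6.KP.hUPR
theorem aORT : StORT := Pool.Agent.Helper80.KP.hORT
theorem aPJZ : StPJZ := Pool.Agent.Helper37.KP.hPJZ
theorem aCOC : StCOC := Pool.Agent.Helper22.KP.hCOC aJEN aUPR aORT aPJZ
theorem aHSL : StHSL := Pool.Agent.Helper62.KP.hHSL aORT aPJZ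
theorem aFLG : StFLG := Pool.Agent.Helper99.KP.hFLG
theorem aDIR : StDIR := Pool.Agent.Helper61.KP.hDIR aJEN aCOC aHSL aFLG
theorem aCAB : StCAB := Pool.Agent.Helper34.KP.hCAB
theorem aSLP : StSLP := Pool.Agent.Helper27.KP.hSLP aHSL
theorem aWEX : StWEX := Pool.Agent.Helper2.KP.hWEX aORT aPJZ
theorem aONB : StONB := Pool.Agent.Helper2.KP.hONB
theorem aEIG : StEIG := Pool.Agent.Helper16.KP.hEIG aONB
theorem aEXF : StEXF := Pool.Agent.Helper9.KP.hEXF aONB aEIG
theorem aLGF : StLGF := Pool.Agent.Helper37.KP.hLGF aEIG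
theorem aLVL : StLVL := Pool.Agent.Helper85.KP.hLVL aDIR aCAB aSLP aWEX aONB aEXF aLGF
theorem aEGB : StEGB := Pool.Agent.Helper30.KP.hEGB aEIG
theorem aBDW : StBDW := Pool.Agent.Helper91.KP.hBDW aEIG aEGB
theorem aLIM : StLIM := Pool.Agent.Helper78.KP.hLIM aONB aEIG
theorem aRGA : StRGA := Pool.Agent.Helper41.KP.hRGA
theorem aINT : StINT := Pool.Agent.Helper26.KP.hINT
theorem aSGC : StSGC := Pool.Agent.Helper60.KP.hSGC
theorem aNFI : StNFI := Pool.Agent.Helper33.KP.hNFI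

theorem aLOW : StLOW := Pool.Agent.Helper57.KP.hLOW aEIG
theorem aTOT : StTOT := Pool.Agent.Helper13.KP.hTOT aEIG aEGB
theorem aGNN : StGNN := Pool.Agent.Helper65.KP.hGNN
theorem aRIG : StRIG := Pool.Agent.Helper92.KP.hRIG aGNN aRGA

/-- Chapters S and R: only the two statements of chapter E are used. -/
theorem equ (hipp : StIPP) (hone : StONE) : StEQU :=
  hFNR hipp hone aEGB aLVL aBDW aLIM (hCTN aEGB aLOW) aTOT aRIG aINT aSGC aNFI

end Pool.Agent.Helper68.KP
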