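import Pool.Agent.Helper52.KP.Itf

/-!
# Project KP (MP_26be5b_ag), chapters S and R (equality case): definitions

`A` is a commutative domain over `ℂ`, `E k` the graded pieces of a standard graded algebra,
`W : ∀ k, E k →ₗ[ℂ] E k` a family of operators.
-/

set_option autoImplicit false

namespace Pool.Agent.Helper68.KP

open Pool.Agent.Helper52.KP Filter Topology Matrix

/-! ### concrete -/

/-- the inner product on regular functions -/
noncomputable def ipc (C : Cone) (f g : MvPolynomial (Fin C.m) ℂ) : ℂ :=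
  inn C.U C.u (fun z => ev f z * ev C.J z) (fun z => ev g z * ev C.J z)

/-- the section ring of `-r K` in degree `k` -/
abbrev EE (C : Cone) (r k : ℕ) : Submodule ℂ (MvPolynomial (Fin C.m) ℂ) := C.R (C.n * r * k)

/-! ### abstract -/

section

variable {A : Type} [CommRing A] [Algebra ℂ A]

/-- the graded pieces of a standard graded algebra, with polynomial growth of degree `M` -/
structure SG (E : ℕ → Submodule ℂ A) (M : ℕ) : Prop where
  fd : ∀ k, FiniteDimensional ℂ (E k)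
  zero : E 0 = Submodule.span ℂ {1}
  mul : ∀ k k' f f', f ∈ E k → f' ∈ E k' → f * f' ∈ E (k + k')
  gen : ∀ k, 0 < k → E (k + 1) = Submodule.span ℂ {b | ∃ f f', f ∈ E k ∧ f' ∈ E 1 ∧ b = f * f'}
  grow : ∃ a : ℝ, 0 < a ∧
    Tendsto (fun k : ℕ => (Module.finrank ℂ (E k) : ℝ) / (k : ℝ) ^ M) atTop (𝓝 a)

/-- a filtration with jumps between `k` and `Λ k` -/
structure FF (E : ℕ → Submodule ℂ A) (Λ : ℕ) (F : ℕ → ℕ → Submodule ℂ A) : Prop where
  zero : ∀ k, F k 0 = E k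
  one : F 1 1 = E 1
  anti : ∀ k l, F k (l + 1) ≤ F k l
  mul : ∀ k l k' l' f f', f ∈ F k l → f' ∈ F k' l' → f * f' ∈ F (k + k') (l + l')
  bot : ∀ k l, Λ * k < l → F k l = ⊥

/-- Hermitian inner products on the `E k` -/
structure HF (E : ℕ → Submodule ℂ A) (ip : A → A → ℂ) : Prop where
  add : ∀ k, ∀ f ∈ E k, ∀ f' ∈ E k, ∀ g ∈ E k, ip (f + f') g = ip f g + ip f' g
  smul : ∀ k, ∀ (c : ℂ), ∀ f ∈ E k, ∀ g ∈ E k, ip (c • f) g = c * ip f g
  symm : ∀ k, ∀ f ∈ E k, ∀ g ∈ E k, ip g f = star (ip f g)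
  pos : ∀ k, ∀ f ∈ E k, f ≠ 0 → 0 < (ip f f).re

/-- derivations of degree zero -/
def DD (E : ℕ → Submodule ℂ A) (W : ∀ k, E k →ₗ[ℂ] E k) : Prop :=
  ∀ k k' (f : E k) (f' : E k') (g : E (k + k')), (g : A) = f * f' →
    (W (k + k') g : A) = W k f * f' + f * W k' f'

/-- automorphisms of degree zero -/
def AU (E : ℕ → Submodule ℂ A) (σ : ∀ k, E k →ₗ[ℂ] E k) : Prop :=
  (∀ k, Function.Bijective (σ k)) ∧
  ∀ k k' (f : E k) (f' : E k') (g : E (k + k')), (g : A) = f * f' →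
    (σ (k + k') g : A) = σ k f * σ k' f'

/-- self-adjoint -/
def SA {E : ℕ → Submodule ℂ A} (ip : A → A → ℂ) (W : ∀ k, E k →ₗ[ℂ] E k) : Prop :=
  ∀ k (f g : E k), ip (W k f) g = ip f (W k g)

/-- `σ'` is the adjoint of `σ` -/
def AD {E : ℕ → Submodule ℂ A} (ip : A → A → ℂ) (σ σ' : ∀ k, E k →ₗ[ℂ] E k) : Prop :=
  ∀ k (f g : E k), ip (σ k f) g = ip f (σ' k g)

/-- the sum of the eigenspaces of `W k` with real eigenvalues `≥ y` -/
def GW {E : ℕ → Submodule ℂ A} (W : ∀ k, E k →ₗ[ℂ] E k) (k : ℕ) (y : ℝ) : Submodule ℂ A :=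
  Submodule.span ℂ {f | ∃ (e : E k) (w : ℝ), y ≤ w ∧ W k e = (w : ℂ) • e ∧ f = e}

/-- the image of the filtration `F` under the automorphism `σ` -/
def im {E : ℕ → Submodule ℂ A} (σ : ∀ k, E k →ₗ[ℂ] E k) (F : ℕ → ℕ → Submodule ℂ A) (k l : ℕ) :
    Submodule ℂ A :=
  Submodule.map ((E k).subtype ∘ₗ σ k) (Submodule.comap (E k).subtype (F k l))

/-- orthonormal and adapted to the filtration -/
structure OA {E : ℕ → Submodule ℂ A} (ip : A → A → ℂ) (F : ℕ → ℕ → Submodule ℂ A) (k : ℕ) {N : ℕ}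
    (s : Fin N → E k) (lam : Fin N → ℕ) : Prop where
  on : ∀ i j, ip (s i) (s j) = if i = j then 1 else 0
  ad : ∀ l, F k l = Submodule.span ℂ ((fun j => (s j : A)) '' {j | l ≤ lam j})

/-- The input of chapters S, R (estimate (1) of chapter E): for all automorphic images of `F` there is
a self-adjoint derivation which is close to the operator with eigenvalue `lam j` on `s j`. -/
def ONE (E : ℕ → Submodule ℂ A) (ip : A → A → ℂ) (F : ℕ → ℕ → Submodule ℂ A) : Prop :=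
  ∀ ε : ℝ, 0 < ε → ∃ k₀ : ℕ, ∀ k, k₀ ≤ k → ∀ σ : ∀ k, E k →ₗ[ℂ] E k, AU E σ →
    ∃ W : ∀ k, E k →ₗ[ℂ] E k, DD E W ∧ SA ip W ∧
      ∀ (N : ℕ) (s : Fin N → E k) (lam : Fin N → ℕ), OA ip (im σ F) k s lam →
        ∑ j, (ip ((lam j : ℂ) • s j - W k (s j) : E k) ((lam j : ℂ) • s j - W k (s j) : E k)).re ≤
          ε * (k : ℝ) ^ 2 * N

/-- The output of chapter S: a derivation whose eigenspaces have almost the same jumps as `F`. -/
def DIRC (E : ℕ → Submodule ℂ A) (ip : A → A → ℂ) (F : ℕ → ℕ → Submodule ℂ A) : Prop :=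
  ∀ ε : ℝ, 0 < ε → ∃ k₀ : ℕ, ∀ k, k₀ ≤ k →
    ∃ W : ∀ k, E k →ₗ[ℂ] E k, DD E W ∧ SA ip W ∧
      ∃ (N : ℕ) (b : Fin N → A) (lam : Fin N → ℕ) (mu : Fin N → ℝ), LinearIndependent ℂ b ∧
        (∀ l, F k l = Submodule.span ℂ (b '' {j | l ≤ lam j})) ∧
        (∀ y, GW W k y = Submodule.span ℂ (b '' {j | y ≤ mu j})) ∧
        ∑ j, ((lam j : ℝ) - mu j) ^ 2 ≤ ε * (k : ℝ) ^ 2 * N

end

/-! ### interfaces with chapter E (helper85) -/

/-- `ipc` is an inner product on every `C.R m` -/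
def StIPP : Prop := ∀ C : Cone, Good C → HF C.R (ipc C)

/-- CHAPTER E (helper85). -/
def StONE : Prop := ∀ C : Cone, Good C → ∀ r F, NF C r F → ∀ a₀ a₁ b₀ b₁ : ℝ,
  Ex C r F a₀ a₁ b₀ b₁ → a₀ * b₁ = a₁ * b₀ → ∀ ε : ℝ, 0 < ε → ∃ k₀ : ℕ, ∀ k, k₀ ≤ k →
    ∀ F', NF C r F' → (∀ k l, Module.finrank ℂ (F' k l) = Module.finrank ℂ (F k l)) →
    ∃ W : ∀ k, EE C r k →ₗ[ℂ] EE C r k, DD (EE C r) W ∧ SA (ipc C) W ∧
      ∀ (N : ℕ) (s : Fin N → EE C r k) (lam : Fin N → ℕ), OA (ipc C) F' k s lam →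
        ∑ j, (ipc C ((lam j : ℂ) • s j - W k (s j) : EE C r k)
          ((lam j : ℂ) • s j - W k (s j) : EE C r k)).re ≤ ε * (k : ℝ) ^ 2 * N

/-! ### matrices -/

/-- squared Hilbert-Schmidt norm -/
noncomputable def hs {N p : ℕ} (M : Matrix (Fin N) (Fin p) ℂ) : ℝ := ∑ i, ∑ j, ‖M i j‖ ^ 2

/-- orthogonal projection to the range of `X` (independent columns) -/
noncomputable def pj {N p : ℕ} (X : Matrix (Fin N) (Fin p) ℂ) : Matrix (Fin N) (Fin N) ℂ :=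
  X * (Xᴴ * X)⁻¹ * Xᴴ

/-- a weighted flag in `ℂ^N`: isometries `V i` (onto the subspaces) with weights `c i`, and a weight
`c0` for the whole space -/
structure WF (N : ℕ) where
  m : ℕ
  p : Fin m → ℕ
  V : ∀ i, Matrix (Fin N) (Fin (p i)) ℂ
  c : Fin m → ℝ
  c0 : ℝ

structure WF.Ok {N : ℕ} (w : WF N) : Prop where
  orth : ∀ i, (w.V i)ᴴ * w.V i = 1
  pos : ∀ i, 0 ≤ w.c i
  nest : ∀ i j, (∃ X : Matrix (Fin (w.p j)) (Fin (w.p i)) ℂ, w.V i = w.V j * X) ∨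
    (∃ X : Matrix (Fin (w.p i)) (Fin (w.p j)) ℂ, w.V j = w.V i * X)

/-- weighted logarithmic volume (the Busemann function) at the positive matrix `P` -/
noncomputable def WF.f {N : ℕ} (w : WF N) (P : Matrix (Fin N) (Fin N) ℂ) : ℝ :=
  ∑ i, w.c i * Real.log (((w.V i)ᴴ * P * w.V i).det.re) + w.c0 * Real.log P.det.re

/-- the self-adjoint operator of the image of the flag under `σ` -/
noncomputable def WF.L {N : ℕ} (w : WF N) (σ : Matrix (Fin N) (Fin N) ℂ) :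
    Matrix (Fin N) (Fin N) ℂ :=
  ∑ i, (w.c i : ℂ) • pj (σ * w.V i) + (w.c0 : ℂ) • 1

/-- the sum of the eigenspaces of a matrix with real eigenvalues `≥ y` -/
def Gm {N : ℕ} (ξ : Matrix (Fin N) (Fin N) ℂ) (y : ℝ) : Submodule ℂ (Fin N → ℂ) :=
  Submodule.span ℂ {v | ∃ x : ℝ, y ≤ x ∧ ξ *ᵥ v = (x : ℂ) • v}

end Pool.Agent.Helper68.KP
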