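import Pool.Agent.Helper68.KP.StR

/-!
# Project KP (MP_26be5b_ag), chapters S and R: assembly
-/

set_option autoImplicit false

namespace Pool.Agent.Helper68.KP

open Pool.Agent.Helper52.KP Filter Topology

section

variable {A : Type} [CommRing A] [Algebra ℂ A] {E : ℕ → Submodule ℂ A}

theorem GW_le (W : ∀ k, E k →ₗ[ℂ] E k) (k : ℕ) (y : ℝ) : GW W k y ≤ E k := by
  unfold GW
  rw [Submodule.span_le]
  rintro f ⟨e, w, -, -, rfl⟩
  exact e.2

theorem GW_anti (W : ∀ k, E k →ₗ[ℂ] E k) (k : ℕ) {y y' : ℝ} (h : y ≤ y') :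
    GW W k y' ≤ GW W k y := by
  unfold GW
  refine Submodule.span_mono ?_
  rintro f ⟨e, w, hw, he, rfl⟩
  exact ⟨e, w, h.trans hw, he, rfl⟩

theorem GW_mul {M : ℕ} (hE : SG E M) {W : ∀ k, E k →ₗ[ℂ] E k} (hW : DD E W) {k k' : ℕ}
    {y y' : ℝ} {f f' : A} (hf : f ∈ GW W k y) (hf' : f' ∈ GW W k' y') :
    f * f' ∈ GW W (k + k') (y + y') := by
  unfold GW at hf hf'
  refine Submodule.span_induction₂ (p := fun x y _ _ => x * y ∈ GW W (k + k') (_ + _)) ?_ ?_ ?_ ?_ ?_ ?_ ?_ hf hf'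
  · rintro _ _ ⟨e, w, hw, he, rfl⟩ ⟨e', w', hw', he', rfl⟩
    refine Submodule.subset_span ⟨⟨e * e', hE.mul _ _ _ _ e.2 e'.2⟩, w + w', add_le_add hw hw',
      ?_, rfl⟩
    apply Subtype.ext
    rw [hW k k' e e' ⟨e * e', hE.mul _ _ _ _ e.2 e'.2⟩ rfl, he, he']
    simp only [Submodule.coe_smul, Complex.ofReal_add]
    rw [add_smul, smul_mul_assoc, mul_smul_comm]
  · intro y _; rw [zero_mul]; exact zero_mem _
  · intro y _; rw [mul_zero]; exact zero_mem _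
  · intro x y z _ _ _ h h'; rw [add_mul]; exact add_mem h h'
  · intro x y z _ _ _ h h'; rw [mul_add]; exact add_mem h h'
  · intro c x y _ _ h; rw [smul_mul_assoc]; exact Submodule.smul_mem _ _ h
  · intro c x y _ _ h; rw [mul_smul_comm]; exact Submodule.smul_mem _ _ h

/-- the eigenvalues are bounded -/
theorem EB_exists {V : Submodule ℂ A} (hV : FiniteDimensional ℂ V) (T : V →ₗ[ℂ] V) :
    ∃ a b : ℝ, EB T a b := by
  have hfin : {w : ℝ | ∃ e : V, e ≠ 0 ∧ T e = (w : ℂ) • e}.Finite := by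
    have h1 : {μ : ℂ | Module.End.HasEigenvalue T μ}.Finite := Module.End.finite_hasEigenvalue T
    refine (h1.preimage (f := fun w : ℝ => (w : ℂ)) (Complex.ofReal_injective.injOn)).subset ?_
    rintro w ⟨e, he, hw⟩
    exact Module.End.hasEigenvalue_of_hasEigenvector
      ⟨Module.End.mem_eigenspace_iff.2 hw, he⟩
  obtain ⟨a, ha⟩ := hfin.bddBelow
  obtain ⟨b, hb⟩ := hfin.bddAbove
  exact ⟨a, b, fun e w he hw => ⟨ha ⟨e, he, hw⟩, hb ⟨e, he, hw⟩⟩⟩

end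

theorem hFNR (hipp : StIPP) (hone : StONE) (hEGB : StEGB) (hLVL : StLVL) (hBDW : StBDW)
    (hLIM : StLIM) (hCTN : StCTN) (hTOT : StTOT) (hRIG : StRIG) (hINT : StINT) (hSGC : StSGC)
    (hNFI : StNFI) : StEQU := by
  intro C hC r F hF a₀ a₁ b₀ b₁ hEx heq hRad
  obtain ⟨hSG, hHF, hInd, Λ, hFF⟩ := hSGC hipp C hC r F hF
  -- chapter S
  have hOne : ONE (EE C r) (ipc C) F := by
    intro ε hε
    obtain ⟨k₀, hk₀⟩ := hone C hC r F hF a₀ a₁ b₀ b₁ hEx heq ε hε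
    refine ⟨k₀, fun k hk σ hσ => ?_⟩
    obtain ⟨h1, h2⟩ := hNFI C hC r F hF σ hσ
    exact hk₀ k hk (im σ F) h1 h2
  have hD : DIRC (EE C r) (ipc C) F := hLVL _ (EE C r) (ipc C) (C.m - 1) Λ F hSG hHF hFF hOne
  obtain ⟨ε₀, Cb, k₁, hε₀, hbd⟩ := hBDW _ (EE C r) (ipc C) (C.m - 1) Λ F hSG hHF hFF
  -- the sequences
  have hseq : ∀ n : ℕ, ∃ (K : ℕ) (W : ∀ k, EE C r k →ₗ[ℂ] EE C r k), n ≤ K ∧ k₁ ≤ K ∧
      DD (EE C r) W ∧ SA (ipc C) W ∧ JD F W K (min ε₀ (1 / ((n : ℝ) + 1))) := by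
    intro n
    have hpos : 0 < min ε₀ (1 / ((n : ℝ) + 1)) := lt_min hε₀ (by positivity)
    obtain ⟨k₀, hk₀⟩ := hD _ hpos
    obtain ⟨W, h1, h2, h3⟩ := hk₀ (max k₀ (max n k₁)) (le_max_left _ _)
    exact ⟨max k₀ (max n k₁), W, (le_max_left _ _).trans (le_max_right _ _),
      (le_max_right _ _).trans (le_max_right _ _), h1, h2, h3⟩
  choose K W hKn hKk hDD hSA hJD using hseq
  have hKtop : Tendsto K atTop atTop := tendsto_atTop_mono hKn tendsto_id
  have hεtop : Tendsto (fun n : ℕ => min ε₀ (1 / ((n : ℝ) + 1))) atTop (𝓝 0) := by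
    refine squeeze_zero (fun n => (lt_min hε₀ (by positivity)).le) (fun n => min_le_right _ _) ?_
    exact tendsto_one_div_add_atTop_nhds_zero_nat
  have hEB : ∀ n, EB (W n 1) (-Cb) Cb := by
    intro n
    refine hbd (K n) (hKk n) (W n) (hDD n) (hSA n) ?_
    obtain ⟨N, b, lam, mu, h1, h2, h3, h4⟩ := hJD n
    refine ⟨N, b, lam, mu, h1, h2, h3, h4.trans ?_⟩
    have : min ε₀ (1 / ((n : ℝ) + 1)) ≤ ε₀ := min_le_left _ _
    have hK : (0 : ℝ) ≤ (K n : ℝ) ^ 2 := by positivity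
    have hN : (0 : ℝ) ≤ (N : ℝ) := by positivity
    exact mul_le_mul_of_nonneg_right (mul_le_mul_of_nonneg_right this hK) hN
  obtain ⟨W', φ, hφ, hDD', hSA', hcl, hEBd⟩ :=
    hLIM _ (EE C r) (ipc C) (C.m - 1) Cb hSG hHF W (fun n => ⟨hDD n, hSA n, hEB n⟩)
  have hFle : ∀ k l, F k l ≤ EE C r k := by
    intro k l
    induction l with
    | zero => rw [hFF.zero]
    | succ l ih => exact (hFF.anti k l).trans ih
  have hle : ∀ (k l : ℕ), F k l ≤ GW W' k (l : ℝ) := by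
    intro k l f hf
    refine hcl k f l (hFle k l hf) ?_
    exact hCTN _ (EE C r) (ipc C) (C.m - 1) Λ F Cb hSG hHF hFF (fun n => W (φ n))
      (fun n => K (φ n)) (fun n => min ε₀ (1 / ((φ n : ℝ) + 1))) (hKtop.comp hφ.tendsto_atTop)
      (hεtop.comp hφ.tendsto_atTop) (fun n => ⟨hDD _, hSA _, hEB _, hJD _⟩) k l f hf
  have hT := hTOT _ (EE C r) (ipc C) (C.m - 1) Λ F hSG hHF hFF (fun n => W (φ n))
      (fun n => K (φ n)) (fun n => min ε₀ (1 / ((φ n : ℝ) + 1))) W' (hKtop.comp hφ.tendsto_atTop)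
      (hεtop.comp hφ.tendsto_atTop) (fun n => ⟨hDD _, hSA _, hJD _⟩) hDD' hSA' hEBd hle
  -- the filtration of `W'`
  obtain ⟨a, b, hab⟩ := EB_exists (hSG.fd 1) (W' 1)
  have hEBk := hEGB _ (EE C r) (ipc C) (C.m - 1) hSG hHF W' hDD' hSA' a b hab
  have hFFG : FF (EE C r) ⌈max b 0⌉₊ (fun k l => GW W' k (l : ℝ)) := by
    refine ⟨fun k => ?_, ?_, fun k l => ?_, fun k l k' l' f f' hf hf' => ?_, fun k l hl => ?_⟩
    · refine le_antisymm (GW_le _ _ _) ?_
      have := hle k 0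
      rwa [hFF.zero] at this
    · refine le_antisymm (GW_le _ _ _) ?_
      have := hle 1 1
      rwa [hFF.one] at this
    · refine GW_anti _ _ ?_
      push_cast; linarith
    · have := GW_mul hSG hDD' hf hf'
      simpa using this
    · simp only [GW]
      rw [Submodule.span_eq_bot]
      rintro _ ⟨e, w, hw, he, rfl⟩
      by_contra hne
      have hne' : e ≠ 0 := fun h => hne (by rw [h]; rfl)
      have h1 := (hEBk k e w hne' he).2
      have h2 : (b : ℝ) ≤ ⌈max b 0⌉₊ := (le_max_left b 0).trans (Nat.le_ceil _)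
      have h3 : (k : ℝ) * b ≤ ((⌈max b 0⌉₊ * k : ℕ) : ℝ) := by
        push_cast
        rw [mul_comm]
        exact mul_le_mul_of_nonneg_right h2 (Nat.cast_nonneg k)
      have h4 : ((⌈max b 0⌉₊ * k : ℕ) : ℝ) < (l : ℝ) := by exact_mod_cast hl
      linarith
  have hEQ : ∀ (k l : ℕ), F k l = GW W' k (l : ℝ) := by
    by_contra hcon
    push Not at hcon
    obtain ⟨k₀, l₀, hne⟩ := hcon
    obtain ⟨f, hf, hf'⟩ : ∃ f, f ∈ GW W' k₀ (l₀ : ℝ) ∧ f ∉ F k₀ l₀ := by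
      by_contra h
      push Not at h
      exact hne (le_antisymm (hle k₀ l₀) h)
    obtain ⟨c, hc, hev⟩ := hRIG _ (EE C r) (C.m - 1) Λ F hSG hFF hInd
      (fun k l hk => hF.gen k l hk) hF.normal ⌈max b 0⌉₊ (fun k l => GW W' k (l : ℝ)) hFFG hle
      k₀ l₀ f hf hf'
    obtain ⟨α, hα, hgr⟩ := hSG.grow
    have hev2 : ∀ᶠ k : ℕ in atTop,
        (Module.finrank ℂ (EE C r k) : ℝ) ≤ 2 * α * (k : ℝ) ^ (C.m - 1) := by
      have h1 : ∀ᶠ k : ℕ in atTop,
          (Module.finrank ℂ (EE C r k) : ℝ) / (k : ℝ) ^ (C.m - 1) < 2 * α :=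
        hgr.eventually_lt_const (by linarith)
      filter_upwards [h1, eventually_gt_atTop 0] with k hk hk0
      have hk' : (0 : ℝ) < (k : ℝ) ^ (C.m - 1) := by positivity
      rw [div_lt_iff₀ hk'] at hk
      exact hk.le
    obtain ⟨k, hk1, hk2, hk3, hk4⟩ :=
      ((hT (c / (4 * α)) (by positivity)).and_eventually
        (hev.and (hev2.and (eventually_gt_atTop 0)))).exists
    have hkpos : (0 : ℝ) < (k : ℝ) := by exact_mod_cast hk4
    have h5 : c / (4 * α) * k * Module.finrank ℂ (EE C r k) ≤ c / 2 * (k : ℝ) ^ (C.m - 1 + 1) := by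
      have : c / (4 * α) * k * Module.finrank ℂ (EE C r k) ≤
          c / (4 * α) * k * (2 * α * (k : ℝ) ^ (C.m - 1)) :=
        mul_le_mul_of_nonneg_left hk3 (by positivity)
      refine this.trans (le_of_eq ?_)
      rw [pow_succ]
      field_simp
      ring
    have h6 : 0 < c * (k : ℝ) ^ (C.m - 1 + 1) := by positivity
    linarith
  -- integer weights
  exact hINT _ (EE C r) (ipc C) (C.m - 1) F hSG hHF W' hDD' hSA' hEQ hFF.zero
    (fun k l j f hj hf hf' => hRad k l j f hj hf hf')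

end Pool.Agent.Helper68.KP
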