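import Pool.Agent.Helper68.KP.Fnr

/-!
# Project KP (MP_26be5b_ag), chapter R, module CTN: containment
-/

set_option autoImplicit false

namespace Pool.Agent.Helper68.KP

open Pool.Agent.Helper52.KP Filter Topology

section

variable {A : Type} [CommRing A] [Algebra ℂ A]

theorem exists_basis_of {V : Submodule ℂ A} {N : ℕ} {b : Fin N → A}
    (hb : LinearIndependent ℂ b) (hV : V = Submodule.span ℂ (Set.range b)) :
    ∃ B : Module.Basis (Fin N) ℂ V, ∀ j, (B j : A) = b j := by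
  subst hV
  exact ⟨Module.Basis.span hb, fun j => by rw [Module.Basis.span_apply]⟩

theorem mem_span_image_iff {V : Submodule ℂ A} {N : ℕ} {b : Fin N → A}
    (B : Module.Basis (Fin N) ℂ V) (hB : ∀ j, (B j : A) = b j) (S : Set (Fin N)) (v : V) :
    (v : A) ∈ Submodule.span ℂ (b '' S) ↔ ∀ j, j ∉ S → B.repr v j = 0 := by
  have h1 : Submodule.span ℂ (b '' S) =
      Submodule.map V.subtype (Submodule.span ℂ (B '' S)) := by
    rw [Submodule.map_span, Set.image_image]
    congr 1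
    refine Set.image_congr fun j _ => ?_
    exact (hB j).symm
  rw [h1]
  have h2 : (v : A) ∈ Submodule.map V.subtype (Submodule.span ℂ (B '' S)) ↔
      v ∈ Submodule.span ℂ (B '' S) := by
    constructor
    · rintro ⟨u, hu, huv⟩
      have : u = v := Subtype.ext huv
      rwa [← this]
    · intro h
      exact ⟨v, h, rfl⟩
  rw [h2, Module.Basis.mem_span_image]
  constructor
  · intro h j hj
    by_contra hne
    exact hj (h (Finsupp.mem_support_iff.2 hne))
  · intro h j hj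
    by_contra hne
    exact (Finsupp.mem_support_iff.1 hj) (h j hne)

theorem FF_pow {E : ℕ → Submodule ℂ A} {M Λ : ℕ} {F : ℕ → ℕ → Submodule ℂ A} (hE : SG E M)
    (hF : FF E Λ F) {k l : ℕ} {f : A} (hf : f ∈ F k l) (m : ℕ) : f ^ m ∈ F (m * k) (m * l) := by
  induction m with
  | zero =>
    rw [pow_zero, Nat.zero_mul, Nat.zero_mul, hF.zero, hE.zero]
    exact Submodule.subset_span rfl
  | succ m ih =>
    rw [pow_succ, Nat.succ_mul, Nat.succ_mul]
    exact hF.mul _ _ _ _ _ _ ih hf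

theorem FF_le {E : ℕ → Submodule ℂ A} {Λ : ℕ} {F : ℕ → ℕ → Submodule ℂ A}
    (hF : FF E Λ F) (k l : ℕ) : F k l ≤ E k := by
  induction l with
  | zero => rw [hF.zero]
  | succ l ih => exact (hF.anti k l).trans ih

theorem GW_eq_bot {E : ℕ → Submodule ℂ A} {W : ∀ k, E k →ₗ[ℂ] E k} {k : ℕ} {a b y : ℝ}
    (h : EB (W k) a b) (hy : b < y) : GW W k y = ⊥ := by
  simp only [GW]
  rw [Submodule.span_eq_bot]
  rintro _ ⟨e, w, hw, he, rfl⟩
  by_contra hne
  have hne' : e ≠ 0 := fun h => hne (by rw [h]; rfl)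
  have h1 := (h e w hne' he).2
  linarith

end

section

variable {A : Type} [CommRing A] [IsDomain A] [Algebra ℂ A]

theorem ctn_low (hLOW : StLOW) {E : ℕ → Submodule ℂ A} {ip : A → A → ℂ} {M : ℕ} (hE : SG E M)
    (hip : HF E ip) {W : ∀ k, E k →ₗ[ℂ] E k} (hD : DD E W) (hS : SA ip W) {k : ℕ} {f : A}
    {y : ℝ} (hf : f ∈ E k) (hf' : f ∉ GW W k y) (m : ℕ) :
    f ^ (m + 1) ∈ E ((m + 1) * k) ∧ f ^ (m + 1) ∉ GW W ((m + 1) * k) ((m + 1 : ℕ) * y) := by
  induction m with
  | zero => simpa using ⟨hf, hf'⟩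
  | succ m ih =>
    obtain ⟨h1, h2⟩ := ih
    have h3 := hLOW A E ip M hE hip W hD hS _ _ _ _ _ _ h1 hf h2 hf'
    have h4 := hE.mul _ _ _ _ h1 hf
    rw [← pow_succ] at h3 h4
    have e1 : (m + 1) * k + k = (m + 1 + 1) * k := by ring
    have e2 : ((m + 1 : ℕ) : ℝ) * y + y = ((m + 1 + 1 : ℕ) : ℝ) * y := by push_cast; ring
    rw [e1] at h4
    rw [e1, e2] at h3
    exact ⟨h4, h3⟩

theorem ctn_step (hEGB : StEGB) (hLOW : StLOW) {E : ℕ → Submodule ℂ A} {ip : A → A → ℂ}
    {M Λ : ℕ} {F : ℕ → ℕ → Submodule ℂ A} {C : ℝ} (hE : SG E M) (hip : HF E ip)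
    (hF : FF E Λ F) {W : ∀ k, E k →ₗ[ℂ] E k} (hD : DD E W) (hS : SA ip W)
    (hEB : EB (W 1) (-C) C) {K : ℕ} {ε : ℝ} (hJ : JD F W K ε) {k l : ℕ} {f : A}
    (hf : f ∈ F k l) {δ : ℝ} (hf' : f ∉ GW W k ((l : ℝ) - δ)) {m k' : ℕ} (hm : 0 < m)
    (hK : m * k + k' = K) (hK0 : 0 < K) {η : ℝ} (hη : 0 < η)
    (hdim : ε / η ^ 2 * Module.finrank ℂ (E K) < Module.finrank ℂ (E k')) :
    m * δ < η * K + C * k' + 1 := by
  classical
  obtain ⟨N, b, lam, mu, hli, h1, h2, h3⟩ := hJ
  have hspan : E K = Submodule.span ℂ (Set.range b) := by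
    rw [← hF.zero, h1 0]
    congr 1
    simp
  obtain ⟨B, hB⟩ := exists_basis_of hli hspan
  have := hE.fd K
  have := hE.fd k'
  have hN : Module.finrank ℂ (E K) = N := by
    rw [Module.finrank_eq_card_basis B, Fintype.card_fin]
  rw [hN] at hdim
  have hfne : f ≠ 0 := fun h => hf' (by rw [h]; exact zero_mem _)
  have hfE : f ∈ E k := FF_le hF k l hf
  obtain ⟨m, rfl⟩ : ∃ m', m = m' + 1 := ⟨m - 1, by omega⟩
  obtain ⟨hp1, hp2⟩ := ctn_low hLOW hE hip hD hS hfE hf' m
  -- the bad indices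
  set Jc : Finset (Fin N) := Finset.univ.filter fun j => η * K < |(lam j : ℝ) - mu j| with hJc
  have hcard : (Jc.card : ℝ) ≤ ε / η ^ 2 * N := by
    have hs1 : (Jc.card : ℝ) * (η * K) ^ 2 ≤ ∑ j, ((lam j : ℝ) - mu j) ^ 2 := by
      calc (Jc.card : ℝ) * (η * K) ^ 2 = ∑ j ∈ Jc, (η * K) ^ 2 := by
            rw [Finset.sum_const, nsmul_eq_mul]
        _ ≤ ∑ j ∈ Jc, ((lam j : ℝ) - mu j) ^ 2 := by
            refine Finset.sum_le_sum fun j hj => ?_
            have hj' : η * K < |(lam j : ℝ) - mu j| := (Finset.mem_filter.1 hj).2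
            rw [← sq_abs ((lam j : ℝ) - mu j)]
            exact pow_le_pow_left₀ (by positivity) hj'.le 2
        _ ≤ ∑ j, ((lam j : ℝ) - mu j) ^ 2 :=
            Finset.sum_le_sum_of_subset_of_nonneg (Finset.subset_univ _) fun _ _ _ => sq_nonneg _
    have hs2 := hs1.trans h3
    have hKpos : (0 : ℝ) < (K : ℝ) ^ 2 := by positivity
    have hη2 : (0 : ℝ) < η ^ 2 := by positivity
    rw [div_mul_eq_mul_div, le_div_iff₀ hη2]
    have hs3 : (Jc.card : ℝ) * η ^ 2 * (K : ℝ) ^ 2 ≤ ε * N * (K : ℝ) ^ 2 := by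
      calc (Jc.card : ℝ) * η ^ 2 * (K : ℝ) ^ 2 = (Jc.card : ℝ) * (η * K) ^ 2 := by ring
        _ ≤ ε * (K : ℝ) ^ 2 * N := hs2
        _ = ε * N * (K : ℝ) ^ 2 := by ring
    exact le_of_mul_le_mul_right hs3 hKpos
  have hlt : Jc.card < Module.finrank ℂ (E k') := by
    have := lt_of_le_of_lt hcard hdim
    exact_mod_cast this
  -- multiplication by `f ^ m`
  have hmem : ∀ a : E k', f ^ (m + 1) * (a : A) ∈ E K := fun a => by
    rw [← hK]; exact hE.mul _ _ _ _ hp1 a.2
  let T : E k' →ₗ[ℂ] E K :=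
    { toFun := fun a => ⟨f ^ (m + 1) * (a : A), hmem a⟩
      map_add' := fun a a' => Subtype.ext (by simp [mul_add])
      map_smul' := fun c a => Subtype.ext (by simp) }
  let R : E K →ₗ[ℂ] ({j // j ∈ Jc} → ℂ) :=
    LinearMap.pi fun j => (LinearMap.proj j.1) ∘ₗ (B.equivFun : E K →ₗ[ℂ] (Fin N → ℂ))
  have hker : LinearMap.ker (R ∘ₗ T) ≠ ⊥ := by
    refine LinearMap.ker_ne_bot_of_finrank_lt ?_
    rw [Module.finrank_fintype_fun_eq_card, Fintype.card_coe]
    exact hlt
  obtain ⟨a, ha, ha0⟩ := Submodule.exists_mem_ne_zero_of_ne_bot hker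
  have hTa : ∀ j, j ∈ Jc → B.repr (T a) j = 0 := by
    intro j hj
    have := congrFun (LinearMap.mem_ker.1 ha) ⟨j, hj⟩
    simpa [R] using this
  have hTF : (T a : A) ∈ F K ((m + 1) * l) := by
    have h5 : f ^ (m + 1) ∈ F ((m + 1) * k) ((m + 1) * l) := FF_pow hE hF hf (m + 1)
    have h6 : (a : A) ∈ F k' 0 := by rw [hF.zero]; exact a.2
    have h7 := hF.mul _ _ _ _ _ _ h5 h6
    rw [hK, add_zero] at h7
    exact h7
  rw [h1, mem_span_image_iff B hB] at hTF
  have hTG : (T a : A) ∈ GW W K (((m + 1) * l : ℕ) - η * K) := by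
    rw [h2, mem_span_image_iff B hB]
    intro j hj
    by_cases hjJ : j ∈ Jc
    · exact hTa j hjJ
    · refine hTF j fun hjl => hj ?_
      have hjl' : (((m + 1) * l : ℕ) : ℝ) ≤ (lam j : ℝ) := by
        have : (m + 1) * l ≤ lam j := hjl
        exact_mod_cast this
      have hjJ' : |(lam j : ℝ) - mu j| ≤ η * K := by
        by_contra hcon
        exact hjJ (Finset.mem_filter.2 ⟨Finset.mem_univ _, not_le.1 hcon⟩)
      have := abs_le.1 hjJ'
      show (((m + 1) * l : ℕ) : ℝ) - η * K ≤ mu j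
      linarith [this.1, this.2]
  -- not in the filtration
  have haG : (a : A) ∉ GW W k' (C * k' + 1) := by
    have h8 := hEGB A E ip M hE hip W hD hS (-C) C hEB k'
    rw [GW_eq_bot h8 (by linarith)]
    intro h9
    exact ha0 (Subtype.ext ((Submodule.mem_bot ℂ).1 h9))
  have hnot := hLOW A E ip M hE hip W hD hS _ _ _ _ _ _ hp1 a.2 hp2 haG
  rw [hK] at hnot
  by_contra hcon
  rw [not_lt] at hcon
  refine hnot (GW_anti W K ?_ hTG)
  push_cast at hcon ⊢
  linarith

end

theorem W_zero {A : Type} [CommRing A] [Algebra ℂ A] {E : ℕ → Submodule ℂ A} {M : ℕ}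
    (hE : SG E M) {W : ∀ k, E k →ₗ[ℂ] E k} (hD : DD E W) (g : E 0) : W 0 g = 0 := by
  have h1 : (1 : A) ∈ E 0 := by rw [hE.zero]; exact Submodule.subset_span rfl
  have h2 := hD 0 0 ⟨1, h1⟩ ⟨1, h1⟩ ⟨1, h1⟩ (by simp)
  have h3 : W 0 ⟨1, h1⟩ = 0 := by
    apply Subtype.ext
    have h4 : ((W 0 ⟨1, h1⟩ : E 0) : A) = W 0 ⟨1, h1⟩ + W 0 ⟨1, h1⟩ := by
      simpa using h2
    simpa using h4
  have h5 : (g : A) ∈ Submodule.span ℂ {(1 : A)} := by rw [← hE.zero]; exact g.2
  obtain ⟨c, hc⟩ := Submodule.mem_span_singleton.1 h5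
  have h6 : g = c • (⟨1, h1⟩ : E 0) := Subtype.ext (by simpa using hc.symm)
  rw [h6, map_smul, h3, smul_zero]

theorem hCTN (hEGB : StEGB) (hLOW : StLOW) : StCTN := by
  intro A _ _ _ E ip M Λ F C hE hip hF W K ε hKt hεt hW k l f hf δ hδ
  -- replace `C` by `max C 0`
  set C' := max C 0 with hC'
  have hC0 : 0 ≤ C' := le_max_right _ _
  have hCC : C ≤ C' := le_max_left _ _
  have hEB' : ∀ n, EB (W n 1) (-C') C' := by
    intro n e w he hw
    have := (hW n).2.2.1 e w he hw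
    constructor
    · linarith [this.1]
    · linarith [this.2]
  by_cases hf0 : f = 0
  · subst hf0
    exact Eventually.of_forall fun n => zero_mem _
  by_cases hk : k = 0
  · -- degree zero
    subst hk
    have hl : l = 0 := by
      by_contra hl
      have hbot := hF.bot 0 l (by omega)
      rw [hbot, Submodule.mem_bot] at hf
      exact hf0 hf
    subst hl
    refine Eventually.of_forall fun n => ?_
    have hfE : f ∈ E 0 := FF_le hF 0 0 hf
    refine Submodule.subset_span ⟨⟨f, hfE⟩, 0, by simpa using hδ.le, ?_, rfl⟩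
    rw [W_zero hE (hW n).1]
    simp
  · have hk1 : 0 < k := Nat.pos_of_ne_zero hk
    obtain ⟨α, hα, hgr⟩ := hE.grow
    have hg1 : ∀ᶠ x : ℕ in atTop,
        (Module.finrank ℂ (E x) : ℝ) ≤ 2 * α * (x : ℝ) ^ M ∧
          α / 2 * (x : ℝ) ^ M ≤ (Module.finrank ℂ (E x) : ℝ) := by
      have h1 : ∀ᶠ x : ℕ in atTop,
          (Module.finrank ℂ (E x) : ℝ) / (x : ℝ) ^ M < 2 * α :=
        hgr.eventually_lt_const (by linarith)
      have h2 : ∀ᶠ x : ℕ in atTop,
          α / 2 < (Module.finrank ℂ (E x) : ℝ) / (x : ℝ) ^ M :=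
        hgr.eventually_const_lt (by linarith)
      filter_upwards [h1, h2, eventually_gt_atTop 0] with x hx1 hx2 hx0
      have hx' : (0 : ℝ) < (x : ℝ) ^ M := by positivity
      rw [div_lt_iff₀ hx'] at hx1
      rw [lt_div_iff₀ hx'] at hx2
      exact ⟨hx1.le, hx2.le⟩
    obtain ⟨k₁, hk₁⟩ := eventually_atTop.1 hg1
    obtain ⟨q, hq⟩ := exists_nat_ge (max 2 (4 * k * (1 + C') / δ))
    have hq2 : (2 : ℝ) ≤ q := (le_max_left _ _).trans hq
    have hq3 : 4 * k * (1 + C') / δ ≤ q := (le_max_right _ _).trans hq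
    have hq2' : 2 ≤ q := by exact_mod_cast hq2
    have hqpos : (0 : ℝ) < q := by linarith
    have hkpos : (0 : ℝ) < k := by exact_mod_cast hk1
    obtain ⟨K₁, hK₁⟩ := exists_nat_ge (4 * k * (δ + C' * k + 1) / δ)
    have hev1 : ∀ᶠ n in atTop, max (max K₁ (2 * q)) (max (2 * k) (q * (k₁ + 1))) ≤ K n :=
      hKt.eventually_ge_atTop _
    have hev2 : ∀ᶠ n in atTop, ε n < 1 / (8 * (q : ℝ) ^ 2 * (2 * q) ^ M) :=
      hεt.eventually_lt_const (by positivity)
    filter_upwards [hev1, hev2] with n hn1 hn2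
    by_contra hf'
    have hKa : K₁ ≤ K n := (le_max_left _ _).trans ((le_max_left _ _).trans hn1)
    have hKb : 2 * q ≤ K n := (le_max_right _ _).trans ((le_max_left _ _).trans hn1)
    have hKc : 2 * k ≤ K n := (le_max_left _ _).trans ((le_max_right _ _).trans hn1)
    have hKd : q * (k₁ + 1) ≤ K n := (le_max_right _ _).trans ((le_max_right _ _).trans hn1)
    set KK := K n with hKK
    set m := (KK - KK / q) / k with hm
    set k' := KK - m * k with hk'
    have hmk : m * k ≤ KK - KK / q := Nat.div_mul_le_self _ _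
    have hmk2 : KK - KK / q < m * k + k := by
      have := Nat.lt_div_mul_add (a := KK - KK / q) hk1
      exact this
    have hdivq : KK / q ≤ KK / 2 := Nat.div_le_div_left hq2' (by norm_num)
    have hKq : k₁ + 1 ≤ KK / q := by
      rw [Nat.le_div_iff_mul_le (by omega)]
      rw [mul_comm]; exact hKd
    have hk'1 : KK / q ≤ k' := by omega
    have hk'2 : k' ≤ KK / q + k := by omega
    have hmkk : m * k + k' = KK := by omega
    have hmpos : 0 < m := by
      rw [hm]
      refine Nat.div_pos ?_ hk1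
      omega
    have hKpos : (0 : ℝ) < KK := by
      have : 0 < KK := by omega
      exact_mod_cast this
    -- real estimates
    have hr1 : (KK / q : ℕ) ≤ (KK : ℝ) / q := Nat.cast_div_le
    have hr2 : (KK : ℝ) / (2 * q) ≤ k' := by
      have h5 : (KK : ℝ) / q < (KK / q : ℕ) + 1 := by
        rw [div_lt_iff₀ hqpos]
        have : KK < (KK / q + 1) * q := by
          have := Nat.lt_div_mul_add (a := KK) (b := q) (by omega)
          nlinarith
        exact_mod_cast this
      have h6 : (1 : ℝ) ≤ (KK : ℝ) / (2 * q) := by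
        rw [le_div_iff₀ (by positivity), one_mul]
        exact_mod_cast hKb
      have h7 : (KK : ℝ) / q = 2 * ((KK : ℝ) / (2 * q)) := by field_simp
      have h8 : ((KK / q : ℕ) : ℝ) ≤ k' := by exact_mod_cast hk'1
      linarith
    have hr3 : (k' : ℝ) ≤ (KK : ℝ) / q + k := by
      have : (k' : ℝ) ≤ ((KK / q : ℕ) : ℝ) + k := by exact_mod_cast hk'2
      linarith
    have hr4 : (KK : ℝ) - KK / q - k ≤ m * k := by
      have h9 : (m : ℝ) * k + k' = KK := by exact_mod_cast hmkk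
      linarith
    have hk'pos : (0 : ℝ) < k' := lt_of_lt_of_le (by positivity) hr2
    have hdim : ε n / (1 / (q : ℝ)) ^ 2 * Module.finrank ℂ (E KK) <
        Module.finrank ℂ (E k') := by
      have hfr1 := (hk₁ KK (by omega)).1
      have hfr2 := (hk₁ k' (by omega)).2
      have hε1 : ε n / (1 / (q : ℝ)) ^ 2 ≤ 1 / (8 * (2 * q) ^ M) := by
        have : ε n / (1 / (q : ℝ)) ^ 2 = ε n * q ^ 2 := by field_simp
        rw [this]
        have h10 : ε n * q ^ 2 ≤ 1 / (8 * (q : ℝ) ^ 2 * (2 * q) ^ M) * q ^ 2 :=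
          mul_le_mul_of_nonneg_right hn2.le (by positivity)
        refine h10.trans (le_of_eq ?_)
        field_simp
      calc ε n / (1 / (q : ℝ)) ^ 2 * Module.finrank ℂ (E KK)
          ≤ 1 / (8 * (2 * q) ^ M) * Module.finrank ℂ (E KK) :=
            mul_le_mul_of_nonneg_right hε1 (by positivity)
        _ ≤ 1 / (8 * (2 * q) ^ M) * (2 * α * (KK : ℝ) ^ M) :=
            mul_le_mul_of_nonneg_left hfr1 (by positivity)
        _ = α / 4 * ((KK : ℝ) / (2 * q)) ^ M := by
            rw [div_pow]; field_simp; ring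
        _ ≤ α / 4 * (k' : ℝ) ^ M :=
            mul_le_mul_of_nonneg_left (pow_le_pow_left₀ (by positivity) hr2 M) (by positivity)
        _ < α / 2 * (k' : ℝ) ^ M := by
            have : 0 < (k' : ℝ) ^ M := by positivity
            nlinarith
        _ ≤ _ := hfr2
    have hfin := ctn_step hEGB hLOW hE hip hF (hW n).1 (hW n).2.1 (hEB' n) (hW n).2.2.2 hf hf'
      hmpos hmkk (by exact_mod_cast hKpos) (η := 1 / (q : ℝ)) (by positivity) hdim
    -- contradiction
    have hc1 : (1 + C') * (KK / q) ≤ δ * KK / (4 * k) := by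
      have h11 : 4 * k * (1 + C') ≤ q * δ := (div_le_iff₀ hδ).1 hq3
      rw [le_div_iff₀ (by positivity)]
      calc (1 + C') * (KK / q) * (4 * k) = 4 * k * (1 + C') * (KK / q) := by ring
        _ ≤ q * δ * (KK / q) := mul_le_mul_of_nonneg_right h11 (by positivity)
        _ = δ * KK := by field_simp
    have hc2 : δ + C' * k + 1 ≤ δ * KK / (4 * k) := by
      have h12 : 4 * k * (δ + C' * k + 1) ≤ K₁ * δ := (div_le_iff₀ hδ).1 hK₁
      rw [le_div_iff₀ (by positivity)]
      have h13 : (K₁ : ℝ) ≤ KK := by exact_mod_cast hKa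
      nlinarith
    have hc3 : δ * KK / (2 * k) - δ ≤ m * δ := by
      have h14 : (KK : ℝ) / q ≤ KK / 2 := by
        rw [div_le_div_iff_of_pos_left hKpos hqpos (by norm_num)]
        exact hq2
      have h15 : (KK : ℝ) / 2 - k ≤ m * k := by linarith
      have h16 : (m : ℝ) * δ = m * k * (δ / k) := by field_simp
      rw [h16]
      have h17 : δ * KK / (2 * k) - δ = (KK / 2 - k) * (δ / k) := by field_simp
      rw [h17]
      exact mul_le_mul_of_nonneg_right h15 (by positivity)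
    have hc4 : 1 / (q : ℝ) * KK + C' * k' + 1 ≤ (1 + C') * (KK / q) + C' * k + 1 := by
      have h18 : C' * k' ≤ C' * ((KK : ℝ) / q + k) := mul_le_mul_of_nonneg_left hr3 hC0
      have h19 : 1 / (q : ℝ) * KK = KK / q := by ring
      rw [h19]
      linarith
    have hc5 : δ * KK / (2 * k) = 2 * (δ * KK / (4 * k)) := by field_simp; ring
    linarith

end Pool.Agent.Helper68.KP
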