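import Pool.Agent.Helper93.KP.St

/-!
# Project KP, module SQX: Markov's inequality for the `j` with a square divisor
-/

set_option autoImplicit false

noncomputable section

namespace Pool.Agent.Helper68.KP

open Finset Filter Topology
open Pool.Agent.Helper93.KP
open Pool.Agent.Helper15.AB (ee Kl StDB StMT)
open Pool.Agent.Helper9.TW (iv bx Rg cc Dec WF bm ms ind UpP LoP gm Ax GUp GLo Qs fm ej
  StFOU StMER StMSB StINQ StWFJ StPOS StC5 StC6 StC9 StAX StD1 StD2 StD3 StD4)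

private theorem mem_sdiff_Jn (z : ℝ) (K n j : ℕ) :
    j ∈ (Icc 1 K) \ Jn z K n ↔ j ∈ Icc 1 K ∧ ∃ p : ℕ, p.Prime ∧ z ≤ (p : ℝ) ∧ p ^ 2 ∣ vk n (30 * j) := by
  classical
  unfold Jn
  rw [Finset.mem_sdiff, Finset.mem_filter]
  constructor
  · rintro ⟨h1, h2⟩
    refine ⟨h1, ?_⟩
    by_contra h3
    apply h2
    refine ⟨h1, fun p hp hz hd => h3 ⟨p, hp, hz, hd⟩⟩
  · rintro ⟨h1, p, hp, hz, hd⟩
    exact ⟨h1, fun h2 => h2.2 p hp hz hd⟩

private theorem sum_card (a K : ℕ) (z : ℝ) :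
    ∑ n ∈ NN a, ((Icc 1 K) \ Jn z K n).card = ∑ j ∈ Icc 1 K, (SQ a z (30 * j)).card := by
  classical
  have h1 : ∀ n ∈ NN a, ((Icc 1 K) \ Jn z K n).card =
      ∑ j ∈ Icc 1 K, if (∃ p : ℕ, p.Prime ∧ z ≤ (p : ℝ) ∧ p ^ 2 ∣ vk n (30 * j)) then 1 else 0 := by
    intro n _
    rw [Finset.sum_ite, Finset.sum_const_zero, add_zero, Finset.sum_const, smul_eq_mul, mul_one]
    congr 1
    ext j
    rw [mem_sdiff_Jn, Finset.mem_filter]
  rw [Finset.sum_congr rfl h1, Finset.sum_comm]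
  refine Finset.sum_congr rfl fun j _ => ?_
  rw [Finset.sum_ite, Finset.sum_const_zero, add_zero, Finset.sum_const, smul_eq_mul, mul_one]
  unfold SQ
  congr 1

theorem hSQX (hB : StBAD) : StSQX := by
  classical
  intro θ hθ hθ1
  obtain ⟨C, hC, hCB⟩ := hB θ (θ / 10) hθ hθ1 (by positivity)
  -- a₀
  have hlim : Tendsto (fun a : ℕ => (a : ℝ) ^ (7 * θ / 30)) atTop atTop :=
    (tendsto_rpow_atTop (by positivity)).comp tendsto_natCast_atTop_atTop
  obtain ⟨a₁, ha₁⟩ := Filter.eventually_atTop.1 (hlim.eventually_ge_atTop C)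
  refine ⟨θ / 3, by positivity, max a₁ 2, ?_⟩
  intro a K ha hK hKa
  have ha1 : a₁ ≤ a := le_trans (le_max_left _ _) ha
  have ha2 : 2 ≤ a := le_trans (le_max_right _ _) ha
  have hapos : (0 : ℝ) < (a : ℝ) := by
    have : (0 : ℕ) < a := by omega
    exact_mod_cast this
  have hCa := ha₁ a ha1
  set z : ℝ := (a : ℝ) ^ θ with hz
  have hKpos : (0 : ℝ) < (K : ℝ) := by
    have : (0 : ℕ) < K := by omega
    exact_mod_cast this
  have htpos : (0 : ℝ) < (K : ℝ) * (a : ℝ) ^ (-(θ / 3)) := mul_pos hKpos (Real.rpow_pos_of_pos hapos _)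
  refine ⟨(NN a).filter (fun n => ¬ ((((Icc 1 K) \ Jn z K n).card : ℝ) ≤ K * (a : ℝ) ^ (-(θ / 3)))), ?_, ?_⟩
  · set E := (NN a).filter (fun n => ¬ ((((Icc 1 K) \ Jn z K n).card : ℝ) ≤ K * (a : ℝ) ^ (-(θ / 3)))) with hE
    -- lower bound for the sum
    have h1 : (E.card : ℝ) * (K * (a : ℝ) ^ (-(θ / 3))) ≤ ∑ n ∈ NN a, (((Icc 1 K) \ Jn z K n).card : ℝ) := by
      calc (E.card : ℝ) * (K * (a : ℝ) ^ (-(θ / 3))) = ∑ n ∈ E, (K * (a : ℝ) ^ (-(θ / 3))) := by
            rw [Finset.sum_const, nsmul_eq_mul]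
        _ ≤ ∑ n ∈ E, (((Icc 1 K) \ Jn z K n).card : ℝ) := by
            refine Finset.sum_le_sum fun n hn => ?_
            rw [hE, Finset.mem_filter] at hn
            exact (not_le.1 hn.2).le
        _ ≤ ∑ n ∈ NN a, (((Icc 1 K) \ Jn z K n).card : ℝ) := by
            refine Finset.sum_le_sum_of_subset_of_nonneg (Finset.filter_subset _ _) fun n _ _ => ?_
            positivity
    have h2 : ∑ n ∈ NN a, (((Icc 1 K) \ Jn z K n).card : ℝ) = ∑ j ∈ Icc 1 K, ((SQ a z (30 * j)).card : ℝ) := by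
      have := sum_card a K z
      exact_mod_cast this
    have h3 : ∑ j ∈ Icc 1 K, ((SQ a z (30 * j)).card : ℝ) ≤ (K : ℝ) * (C * (a : ℝ) ^ (2 - θ + θ / 10)) := by
      calc ∑ j ∈ Icc 1 K, ((SQ a z (30 * j)).card : ℝ) ≤
            ∑ j ∈ Icc 1 K, (C * (a : ℝ) ^ (2 - θ + θ / 10)) := by
            refine Finset.sum_le_sum fun j hj => ?_
            rw [Finset.mem_Icc] at hj
            have hj2 : (j : ℝ) ≤ (K : ℝ) := by exact_mod_cast hj.2
            refine (hCB a (30 * j) (30 * j + 1) ha2 (by omega) (by omega) (by omega) ?_ ?_).1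
            · push_cast
              linarith
            · push_cast
              linarith
        _ = (K : ℝ) * (C * (a : ℝ) ^ (2 - θ + θ / 10)) := by
            rw [Finset.sum_const, nsmul_eq_mul, Nat.card_Icc]
            simp
    have h4 : (E.card : ℝ) * (K * (a : ℝ) ^ (-(θ / 3))) ≤ (K : ℝ) * (C * (a : ℝ) ^ (2 - θ + θ / 10)) := by
      rw [h2] at h1
      exact h1.trans h3
    have h5 : (K : ℝ) * (C * (a : ℝ) ^ (2 - θ + θ / 10)) ≤
        (a : ℝ) ^ (2 - θ / 3) * (K * (a : ℝ) ^ (-(θ / 3))) := by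
      have e1 : (a : ℝ) ^ (2 - θ / 3) * (K * (a : ℝ) ^ (-(θ / 3))) =
          K * ((a : ℝ) ^ (7 * θ / 30) * (a : ℝ) ^ (2 - θ + θ / 10)) := by
        rw [← Real.rpow_add hapos, mul_left_comm, ← Real.rpow_add hapos]
        congr 2
        ring
      rw [e1]
      exact mul_le_mul_of_nonneg_left
        (mul_le_mul_of_nonneg_right hCa (Real.rpow_nonneg hapos.le _)) hKpos.le
    exact le_of_mul_le_mul_right (h4.trans h5) htpos
  · intro n hn hnE
    rw [Finset.mem_filter] at hnE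
    by_contra h
    exact hnE ⟨hn, h⟩

end Pool.Agent.Helper68.KP
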