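import Pool.Agent.Helper68.KP.Defs

/-!
# Project KP (MP_26be5b_ag), chapter S (equality case, part 1): statements

For every statement `StXXX` prove `theorem hXXX : StXXX` in `Pool/Agent/<You>/KP/M_XXX.lean`
(namespace `Pool.Agent.<You>.KP`); statements named in the docstring may be taken as hypotheses.
Definitions: `Defs.lean` (`hs`, `pj`, `WF`, `Gm`, `SG`, `FF`, `HF`, `DD`, `AU`, `SA`, `AD`, `GW`, `im`,
`OA`, `ONE`, `DIRC`). Spectral theorem: `Matrix.IsHermitian.spectral_theorem`,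
`eigenvectorUnitary`, `eigenvalues`, `eigenvectorBasis`. `Matrix.exp_conj`, `Matrix.exp_diagonal`,
`Matrix.exp_add_of_commute`, `Matrix.IsHermitian.exp`, `Matrix.isUnit_exp`, `Matrix.exp_neg`.
A useful fact (write a lemma): for `A` Hermitian, `A = Q diag(a) Qᴴ`, `exp A = Q diag(e^a) Qᴴ`.
-/

set_option autoImplicit false

namespace Pool.Agent.Helper68.KP

open Pool.Agent.Helper52.KP Filter Topology Matrix

/-! ### matrices -/

/-- MODULE JEN (60 lines). Jensen's inequality for the compression of an exponential.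
Proof. `M = Vᴴ exp(A) V` is Hermitian; `U` unitary with `Uᴴ M U = diag(m)`; `V' = V U` is an isometry,
`det M = ∏ m_i`, `tr (V'ᴴ A V') = tr (Vᴴ A V)`. `A = Q diag(a) Qᴴ`; for a column `e` of `V'` (a unit vector)
put `c = Qᴴ e`, `∑ |c_j|² = 1`: `m_i = ∑ |c_j|² e^{a_j} ≥ exp (∑ |c_j|² a_j) = exp ((V'ᴴ A V')_ii)`
(`Real.convexOn_exp`, `ConvexOn.map_sum_le`). Multiply over `i`. -/
def StJEN : Prop := ∀ (N p : ℕ) (A : Matrix (Fin N) (Fin N) ℂ) (V : Matrix (Fin N) (Fin p) ℂ),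
  A.IsHermitian → Vᴴ * V = 1 →
  Real.exp ((Vᴴ * A * V).trace.re) ≤ ((Vᴴ * NormedSpace.exp A * V).det).re

/-- MODULE UPR (60 lines). Upper bound.
Proof. Notation of JEN. `log det M = ∑ log m_i ≤ ∑ (m_i - 1)`. `|a_j| ≤ 1` because `∑ a_j² = hs A ≤ 1`, so
`e^{a_j} ≤ 1 + a_j + a_j²` (`Real.exp_bound_div_one_sub_of_interval` or `Real.abs_exp_sub_one_sub_id_le`)
and `m_i - 1 ≤ (V'ᴴ A V')_ii + (V'ᴴ A² V')_ii`. `tr (V'ᴴ A² V') = tr (Vᴴ A² V) = hs (A V) ≤ hs A`, because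
`hs A - hs (A V) = hs (A (1 - V Vᴴ))`-type identity (`1 - V Vᴴ` is an orthogonal projection). -/
def StUPR : Prop := ∀ (N p : ℕ) (A : Matrix (Fin N) (Fin N) ℂ) (V : Matrix (Fin N) (Fin p) ℂ),
  A.IsHermitian → Vᴴ * V = 1 → hs A ≤ 1 →
  Real.log (((Vᴴ * NormedSpace.exp A * V).det).re) ≤ (Vᴴ * A * V).trace.re + hs A

/-- MODULE ORT (50 lines). Orthonormalization.
Proof. `X = σ V`, `G = Xᴴ X` is positive definite (`X v = 0` implies `V v = 0`, `v = Vᴴ V v = 0`),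
`G = U diag(g) Uᴴ`, `g > 0`. `T = diag(√g) Uᴴ`, `V' = X U diag(1/√g)`. -/
def StORT : Prop := ∀ (N p : ℕ) (σ : Matrix (Fin N) (Fin N) ℂ) (V : Matrix (Fin N) (Fin p) ℂ),
  IsUnit σ → Vᴴ * V = 1 → ∃ (V' : Matrix (Fin N) (Fin p) ℂ) (T : Matrix (Fin p) (Fin p) ℂ),
    V'ᴴ * V' = 1 ∧ IsUnit T ∧ σ * V = V' * T

/-- MODULE PJZ (50 lines). Proof. `Xᴴ X = Tᴴ T`, `(Tᴴ T)⁻¹ = T⁻¹ Tᴴ⁻¹`; `det (Tᴴ T) = |det T|²`. -/
def StPJZ : Prop := ∀ (N p : ℕ) (X V' : Matrix (Fin N) (Fin p) ℂ) (T : Matrix (Fin p) (Fin p) ℂ),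
  V'ᴴ * V' = 1 → IsUnit T → X = V' * T →
  pj X = V' * V'ᴴ ∧ 0 < ‖T.det‖ ∧
  ∀ A : Matrix (Fin N) (Fin N) ℂ,
    (Xᴴ * A * X).det = ((‖T.det‖ ^ 2 : ℝ) : ℂ) * (V'ᴴ * A * V').det

/-- MODULE COC (90 lines). Inputs: StJEN, StUPR, StORT, StPJZ.
Proof. For every `i`, `σ V_i = V' T` (ORT). By PJZ `det (V_iᴴ σᴴ exp(A) σ V_i) = |det T|² det (V'ᴴ exp(A) V')`
and the same with `A = 0`, so the logarithm increases by `log det (V'ᴴ exp(A) V')`, which is between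
`tr (V'ᴴ A V')` and this plus `hs A`; `tr (V'ᴴ A V') = tr (A (V' V'ᴴ)) = tr (A pj(σ V_i))`. Multiply by
`c_i ≥ 0`. The `c0`-term is exact: `det (σᴴ exp(A) σ) = |det σ|² exp (tr A)`. `w.f 1 = 0`. -/
def StCOC : Prop := ∀ (N : ℕ) (w : WF N) (σ A : Matrix (Fin N) (Fin N) ℂ), w.Ok → IsUnit σ →
  A.IsHermitian →
  w.f 1 = 0 ∧
  w.f (σᴴ * σ) + (A * w.L σ).trace.re ≤ w.f (σᴴ * NormedSpace.exp A * σ) ∧
  (hs A ≤ 1 → w.f (σᴴ * NormedSpace.exp A * σ) ≤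
    w.f (σᴴ * σ) + (A * w.L σ).trace.re + (∑ i, w.c i) * hs A)

/-- MODULE HSL (80 lines). Inputs: StORT, StPJZ.
Proof. `Π_i = pj (σ V_i) = V' V'ᴴ` is Hermitian, idempotent, of trace `p_i`, and `Π_i (σ V_i) = σ V_i`.
If `V_i = V_j X` then `Π_j (σ V_i) = σ V_i`, so `Π_j Π_i = Π_i` and `tr (Π_i Π_j) = p_i` (`≤ p_j`); hence
`tr (Π_i Π_j) = min p_i p_j` in both cases, for all `σ`. `hs L = tr (L * L)` (`L` Hermitian)
`= ∑ c_i c_j tr (Π_i Π_j) + 2 c0 ∑ c_i p_i + c0² N`. -/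
def StHSL : Prop := ∀ (N : ℕ) (w : WF N) (σ : Matrix (Fin N) (Fin N) ℂ), w.Ok → IsUnit σ →
  (w.L σ).IsHermitian ∧ hs (w.L σ) = hs (w.L 1) ∧
  hs (w.L 1) = ∑ i, ∑ j, w.c i * w.c j * (min (w.p i) (w.p j) : ℕ) +
    2 * w.c0 * ∑ i, w.c i * w.p i + w.c0 ^ 2 * N

/-- MODULE FLG (100 lines). Every Hermitian matrix comes from a weighted flag.
Proof. `D = Q diag(d) Qᴴ` with `d 0 ≥ d 1 ≥ ..` (`Matrix.IsHermitian.eigenvalues₀_antitone`, or sort).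
`m = N`, `V_i =` the first `i + 1` columns of `Q`, `c_i = d_i - d_{i+1}` for `i + 1 < N`, `c_{N-1} = 0`,
`c0 = d_{N-1}` (`N = 0`: everything empty, `c0 = 0`). `∑ c_i = d_0 - d_{N-1} ≤ 2 √(hs D)`.
`pj (1 * V_i) = ∑_{j ≤ i} q_j q_jᴴ`, so `L 1 = ∑_j (∑_{i ≥ j} c_i + c0) q_j q_jᴴ = ∑ d_j q_j q_jᴴ = D` (telescoping).
`V_iᴴ exp(tD) V_i = diag(e^{t d_j})_{j ≤ i}`, so `f (exp (tD)) = t (∑_i c_i ∑_{j ≤ i} d_j + c0 ∑ d_j) = t ∑ d_j²`. -/
def StFLG : Prop := ∀ (N : ℕ) (D : Matrix (Fin N) (Fin N) ℂ), D.IsHermitian →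
  ∃ w : WF N, w.Ok ∧ w.L 1 = D ∧ ∑ i, w.c i ≤ 2 * Real.sqrt (hs D) ∧
    ∀ t : ℝ, w.f (NormedSpace.exp ((t : ℂ) • D)) = t * hs D

/-- MODULE DIR (200 lines, STRONG). The direction of steepest descent. Inputs: StCOC, StHSL, StFLG.
Proof. `L = √(hs (w.L 1)) > 0`, `m = ∑ c_i`. Real trace inner product `⟨X, Y⟩ = re tr (X Y)` on Hermitian
matrices, `⟨X, X⟩ = hs X`, Cauchy-Schwarz. Let `σ ∈ 𝒢`, `Λ = w.L σ`, `hs Λ = L²` (HSL), `W ∈ 𝒮` with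
`hs (W - Λ) ≤ ε² L²`. Then `√(hs W) ≥ (1 - ε) L > 0`; `B = W / √(hs W) ∈ 𝒮`, `hs B = 1`,
`2 ⟨W, Λ⟩ = hs W + L² - hs (W - Λ) ≥ hs W + (1 - ε²) L² ≥ 2 (1 - ε) L √(hs W)`, so `⟨B, Λ⟩ ≥ (1 - ε) L`.
STEP: for `0 < h ≤ 1`, `σ' = exp (-(h/2) B) σ ∈ 𝒢`, `σ'ᴴ σ' = σᴴ exp (-h B) σ`, and by COC
`f (σ'ᴴ σ') ≤ f (σᴴ σ) - h (1 - ε) L + m h²`; and for EVERY ok weighted flag `w'` with
`hs (w'.L 1) = 1`, `∑ c'_i ≤ 2`: `f' (σ'ᴴ σ') ≤ f' (σᴴ σ) + h + 2 h²`.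
Given `T ≥ 1` take `n` steps (induction on the number of steps) with `h = T / n`, `m h ≤ ε L`, `2 h ≤ ε`,
`h ≤ 1`, starting from `σ = 1` (`f 1 = 0`): `σ ∈ 𝒢` with `f (σᴴ σ) ≤ - T (1 - 2 ε) L` and
`f' (σᴴ σ) ≤ T (1 + ε)` for all `w'` as above. Let `ξ ∈ 𝒮`, `exp (-ξ) = σᴴ σ`, `R = √(hs ξ)`. `R > 0`
(`f 1 = 0`). FLG for `D = - ξ / R`: `R = f' (exp (R D)) ≤ T (1 + ε)`. COC at `1` with `A = - ξ`:
`f (exp (-ξ)) ≥ - R L`, so `R ≥ T (1 - 2 ε)`. Let `ξ' = ξ / R`, `0 ≤ s ≤ R`, `f_s = f (exp (- s ξ'))`,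
`q = ⟨ξ', w.L (exp (-(s/2) ξ'))⟩`. COC at `exp (-(s/2) ξ')` with `A = -(R - s) ξ'` and with `A = s ξ'`:
`f_R ≥ f_s - (R - s) q`, `0 ≥ f_s + s q`; so `f_s ≤ (s / R) f_R ≤ - s (1 - 2 ε) L / (1 + ε) ≤ - s (1 - 3 ε) L`.
Let `T = 1, 2, ..`: the `ξ'_T` are in the compact set `{ξ ∈ 𝒮 : hs ξ = 1}` (a subspace of a
finite-dimensional space is closed); a subsequence converges to `ξ'`; for fixed `s` the inequality
holds for all large `T`, and `ξ ↦ f (exp (-(s • ξ)))` is continuous on Hermitian matrices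
(the determinants are positive by JEN-type bounds or positive definiteness). -/
def StDIR : Prop := ∀ (N : ℕ) (w : WF N) (𝒮 : Submodule ℝ (Matrix (Fin N) (Fin N) ℂ))
  (𝒢 : Set (Matrix (Fin N) (Fin N) ℂ)) (ε : ℝ), w.Ok → (∀ B ∈ 𝒮, B.IsHermitian) →
  (1 : Matrix (Fin N) (Fin N) ℂ) ∈ 𝒢 →
  (∀ B ∈ 𝒮, ∀ σ ∈ 𝒢, NormedSpace.exp B * σ ∈ 𝒢) →
  (∀ σ ∈ 𝒢, IsUnit σ ∧ ∃ ξ ∈ 𝒮, NormedSpace.exp (-ξ) = σᴴ * σ) →
  0 < ε → ε ≤ 1 / 10 → 0 < hs (w.L 1) →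
  (∀ σ ∈ 𝒢, ∃ W ∈ 𝒮, hs (W - w.L σ) ≤ ε ^ 2 * hs (w.L 1)) →
  ∃ ξ ∈ 𝒮, hs ξ = 1 ∧ ∀ s : ℝ, 0 ≤ s →
    w.f (NormedSpace.exp (-((s : ℂ) • ξ))) ≤ -(s * ((1 - 3 * ε) * Real.sqrt (hs (w.L 1))))

/-- MODULE CAB (130 lines). A basis adapted to two filtrations.
Proof. Let `x_1 > x_2 > .. > x_r` be the eigenvalues of `ξ`, `G_i = Gm ξ x_i`, increasing in `i`, `G_r = ⊤`
(`ξ` Hermitian). For `l < M` the images of `F_l ∩ G_i` in `F_l / F_{l+1}` increase with `i`; choose a basis of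
the quotient adapted to this chain and lift each element of the `i`-th step to a vector of
`F_l ∩ G_i` with the label `(lam, mu) = (l, x_i)`. The union over `l` is a basis of `ℂ^N`. Downward
induction on `l`: `F_l` is the span of the members with `lam ≥ l`, and `F_l ∩ G_i` of those with
`lam ≥ l`, `mu ≥ x_i` (for `x ∈ F_l ∩ G_i` subtract the lifts; the rest is in `F_{l+1} ∩ G_i`). `l = 0` gives
`G_i`. For real `y`: `Gm ξ y = G_i` for the last `x_i ≥ y` (`⊥` if there is none). (More abstract: prove it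
for two decreasing filtrations indexed by `ℕ`, both from `⊤` to `⊥`, and apply it.) -/
def StCAB : Prop := ∀ (N M : ℕ) (F : ℕ → Submodule ℂ (Fin N → ℂ)) (ξ : Matrix (Fin N) (Fin N) ℂ),
  Antitone F → F 0 = ⊤ → F M = ⊥ → ξ.IsHermitian →
  ∃ (b : Fin N → Fin N → ℂ) (lam : Fin N → ℕ) (mu : Fin N → ℝ), LinearIndependent ℂ b ∧
    (∀ l, F l = Submodule.span ℂ (b '' {j | l ≤ lam j})) ∧
    ∀ y, Gm ξ y = Submodule.span ℂ (b '' {j | y ≤ mu j})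

/-- MODULE SLP (150 lines, strong). The slope at infinity. Inputs: StHSL.
Proof. `J_i = {j : i + 1 ≤ lam j}`, `p_i = #J_i` (`range V_i = F (i+1)`, `V_i` injective). `X_i =` the matrix of
the columns `b_j`, `j ∈ J_i`: `X_i = V_i T_i`, `T_i` invertible, `det (X_iᴴ e^{-sξ} X_i) = |det T_i|² det (V_iᴴ e^{-sξ} V_i)`.
Let `b'_j` be the component of `b_j` in the eigenspace of `mu j` (`b_j ∈ Gm ξ (mu j)`, so all components
have eigenvalue `≥ mu j`). The `b'_j` are linearly independent: if `∑ c_j b'_j = 0`, then for every eigenvalue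
`x`, `∑_{mu j = x} c_j b_j` has no component in the eigenspace `x`, so it is in `Gm ξ (x + δ)` for a `δ > 0`,
`= span {b_j : mu j ≥ x + δ}`; independence of `b` gives `c_j = 0`. As `s → ∞`,
`e^{s mu_j / 2} e^{-(s/2) ξ} b_j → b'_j`; so with `Y_s` the matrix of these columns (`j ∈ J_i`),
`det (Y_sᴴ Y_s) → det (Y_∞ᴴ Y_∞) > 0` and `det (X_iᴴ e^{-sξ} X_i) = e^{-s ∑_{J_i} mu_j} det (Y_sᴴ Y_s)`. So for large `s`,
`log det (V_iᴴ e^{-sξ} V_i) ≥ - s ∑_{J_i} mu_j - K`; sum over `i` (`∑_i ∑_{J_i} mu_j = ∑_j lam_j mu_j`):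
`- s c ≥ f ≥ - s ∑ lam_j mu_j - K'`; let `s → ∞`. Second: `#{j : mu_j = x} =` dimension of the eigenspace
(from the dimensions of `Gm ξ y`), and `hs ξ = ∑` (eigenvalues)². Third: HSL with `σ = 1`,
`∑_{i,i'} min (#J_i) (#J_i') = ∑_j lam_j²`. -/
def StSLP : Prop := ∀ (N : ℕ) (w : WF N) (F : ℕ → Submodule ℂ (Fin N → ℂ))
  (ξ : Matrix (Fin N) (Fin N) ℂ) (b : Fin N → Fin N → ℂ) (lam : Fin N → ℕ) (mu : Fin N → ℝ)
  (c : ℝ), w.Ok → (∀ i, w.c i = 1) → w.c0 = 0 →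
  (∀ i : Fin w.m, LinearMap.range (Matrix.mulVecLin (w.V i)) = F (i + 1)) →
  (∀ j, lam j ≤ w.m) → ξ.IsHermitian → LinearIndependent ℂ b →
  (∀ l, F l = Submodule.span ℂ (b '' {j | l ≤ lam j})) →
  (∀ y, Gm ξ y = Submodule.span ℂ (b '' {j | y ≤ mu j})) →
  (∀ s : ℝ, 0 ≤ s → w.f (NormedSpace.exp (-((s : ℂ) • ξ))) ≤ -(s * c)) →
  c ≤ ∑ j, (lam j : ℝ) * mu j ∧ ∑ j, mu j ^ 2 = hs ξ ∧ ∑ j, (lam j : ℝ) ^ 2 = hs (w.L 1)

/-- MODULE WEX (90 lines). Weighted flags of a filtration, adapted orthonormal bases. Input: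
StPJZ, StORT.
Proof. `V_i` = matrix of an orthonormal basis of `F (i+1)`; nested because `F` is antitone. Adapted
orthonormal basis of an antitone filtration `F' = map σ F` from `⊤` to `⊥`: orthonormal basis of the
smallest member, extended step by step. Last claim: `pj (σ V_i)` is the orthogonal projection to
`map σ (F (i+1)) = span {s_j : i + 1 ≤ lam j}`, that is `∑_{j : i + 1 ≤ lam j} s_j s_jᴴ`; so `w.L σ s_j = lam j s_j`, and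
`hs K = ∑_j ‖K s_j‖²` for an orthonormal basis. -/
def StWEX : Prop := ∀ (N M : ℕ) (F : ℕ → Submodule ℂ (Fin N → ℂ)), Antitone F → F 0 = ⊤ →
  F M = ⊥ → ∃ w : WF N, w.Ok ∧ w.m = M ∧ (∀ i, w.c i = 1) ∧ w.c0 = 0 ∧
    (∀ i : Fin w.m, LinearMap.range (Matrix.mulVecLin (w.V i)) = F (i + 1)) ∧
    ∀ σ : Matrix (Fin N) (Fin N) ℂ, IsUnit σ →
      (∃ (s : Fin N → Fin N → ℂ) (lam : Fin N → ℕ),
        (∀ i j, ∑ a, s i a * star (s j a) = if i = j then 1 else 0) ∧ (∀ j, lam j < M) ∧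
        ∀ l, Submodule.map (Matrix.mulVecLin σ) (F l) = Submodule.span ℂ (s '' {j | l ≤ lam j})) ∧
      ∀ (s : Fin N → Fin N → ℂ) (lam : Fin N → ℕ),
        (∀ i j, ∑ a, s i a * star (s j a) = if i = j then 1 else 0) → (∀ j, lam j < M) →
        (∀ l, Submodule.map (Matrix.mulVecLin σ) (F l) =
          Submodule.span ℂ (s '' {j | l ≤ lam j})) →
        ∀ W : Matrix (Fin N) (Fin N) ℂ,
          hs (W - w.L σ) = ∑ j, ∑ a, ‖(lam j : ℂ) * s j a - (W *ᵥ s j) a‖ ^ 2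

/-! ### families of operators -/

section

/-- MODULE ONB (50 lines). Orthonormal coordinates.
Proof. `ip` restricted to the finite-dimensional space `E k` is an inner product
(`InnerProductSpace.ofCore` with `⟪f, g⟫ = ip g f`); orthonormal basis, or Gram-Schmidt by hand. -/
def StONB : Prop := ∀ (A : Type) [CommRing A] [Algebra ℂ A] (E : ℕ → Submodule ℂ A)
  (ip : A → A → ℂ) (k : ℕ), FiniteDimensional ℂ (E k) → HF E ip →
  ∃ φ : E k ≃ₗ[ℂ] (Fin (Module.finrank ℂ (E k)) → ℂ), ∀ f g : E k,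
    ip f g = ∑ i, φ f i * star (φ g i)

/-- MODULE EIG (70 lines). Orthonormal basis of eigenvectors. Input: StONB.
Proof. In the coordinates of ONB the matrix of `W k` is Hermitian; `eigenvectorBasis`. The last claim:
`⊇` clear; if `W k e = w e` with `w ≥ y` real, expand `e` in the basis: only the `e_j` with `w_j = w` occur. -/
def StEIG : Prop := ∀ (A : Type) [CommRing A] [Algebra ℂ A] (E : ℕ → Submodule ℂ A)
  (ip : A → A → ℂ) (k : ℕ), FiniteDimensional ℂ (E k) → HF E ip →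
  ∀ W : ∀ k, E k →ₗ[ℂ] E k, SA ip W →
  ∃ (e : Fin (Module.finrank ℂ (E k)) → E k) (w : Fin (Module.finrank ℂ (E k)) → ℝ),
    (∀ i j, ip (e i) (e j) = if i = j then 1 else 0) ∧ (∀ j, W k (e j) = (w j : ℂ) • e j) ∧
    LinearIndependent ℂ e ∧ Submodule.span ℂ (Set.range e) = ⊤ ∧
    ∀ y, GW W k y = Submodule.span ℂ ((fun j => (e j : A)) '' {j | y ≤ w j})

/-- MODULE EXF (100 lines). The exponential of a self-adjoint derivation. Inputs: StONB, StEIG.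
Proof. For an eigenbasis (EIG) define `σ k e_j = e^{w_j} e_j`. It is bijective, self-adjoint, and for EVERY
eigenvector `e` of `W k` with real eigenvalue `w`, `σ k e = e^w e`. For eigenvectors `e ∈ E k`, `e' ∈ E k'`:
`W (e e') = (w + w') e e'` (DD), so `σ (e e') = σ e * σ e'`; both sides are bilinear and eigenvectors span
(`f = ∑ c_i e_i`, `f' = ∑ c'_j e'_j`, `g = ∑ c_i c'_j e_i e'_j`). Coordinates: `exp B *ᵥ v = e^w v` if
`B *ᵥ v = w v` (`B` Hermitian; diagonalize, or the exponential series). -/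
def StEXF : Prop := ∀ (A : Type) [CommRing A] [Algebra ℂ A] (E : ℕ → Submodule ℂ A)
  (ip : A → A → ℂ) (M : ℕ), SG E M → HF E ip →
  ∀ W : ∀ k, E k →ₗ[ℂ] E k, DD E W → SA ip W →
  ∃ σ : ∀ k, E k →ₗ[ℂ] E k, AU E σ ∧ AD ip σ σ ∧
    ∀ (k N : ℕ) (φ : E k ≃ₗ[ℂ] (Fin N → ℂ)) (B : Matrix (Fin N) (Fin N) ℂ),
      (∀ f g : E k, ip f g = ∑ i, φ f i * star (φ g i)) → (∀ f, φ (W k f) = B *ᵥ φ f) →
      ∀ f, φ (σ k f) = NormedSpace.exp B *ᵥ φ f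

/-- MODULE LGF (110 lines). The logarithm of a positive automorphism. Inputs: StONB.
Proof. `P k = σ' k ∘ σ k`: `ip (P f) g = ip (σ f) (σ g)` (AD and symmetry), so `P` is self-adjoint, positive
definite, and `AU E P`. In the coordinates of ONB diagonalize `P k` with eigenvalues `a > 0`, let
`W k = - log (P k)`, so that `W k e = - log a • e` for EVERY eigenvector `e` of `P k` with eigenvalue `a`. DD: for
eigenvectors `e`, `e'`, `P (e e') = a a' e e'`, `W (e e') = - (log a + log a') e e'`; bilinear extension. In any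
isometric coordinates the matrix of `σ' k` is `Sᴴ`, so that of `P k` is `Sᴴ S`, and `exp (-B)` has the same
eigenvectors and eigenvalues. -/
def StLGF : Prop := ∀ (A : Type) [CommRing A] [Algebra ℂ A] (E : ℕ → Submodule ℂ A)
  (ip : A → A → ℂ) (M : ℕ), SG E M → HF E ip →
  ∀ σ σ' : ∀ k, E k →ₗ[ℂ] E k, AU E σ → AU E σ' → AD ip σ σ' →
  ∃ W : ∀ k, E k →ₗ[ℂ] E k, DD E W ∧ SA ip W ∧
    ∀ (k N : ℕ) (φ : E k ≃ₗ[ℂ] (Fin N → ℂ)) (S B : Matrix (Fin N) (Fin N) ℂ),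
      (∀ f g : E k, ip f g = ∑ i, φ f i * star (φ g i)) → (∀ f, φ (σ k f) = S *ᵥ φ f) →
      (∀ f, φ (W k f) = B *ᵥ φ f) → NormedSpace.exp (-B) = Sᴴ * S

/-- MODULE LVL (180 lines, STRONG). Output of chapter S. Inputs: StDIR, StCAB, StSLP, StWEX, StONB,
StEXF, StLGF, StHSL.
Proof. We may assume `0 < ε < 1`. Let `δ = ε / (6 Λ² + 10)`, and `k₀ ≥ 1` of `ONE` for `δ²`, large enough that
`finrank (E k) > 0` for `k ≥ k₀` (`SG.grow`). Fix `k ≥ k₀`, `N = finrank (E k)`, `φ` of ONB,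
`F' l = ` image of `F k l` in `ℂ^N` (`⊤` for `l = 0`, `⊥` for `l = M' = Λ k + 1`, antitone), `w` of WEX.
`𝒮 =` the set of the matrices of `W k`, `W` with `DD`, `SA` (a real subspace of the Hermitian matrices);
`𝒢 =` the matrices of `σ k`, for `σ` with `AU E σ` and an adjoint `σ'` (AD ip σ σ') with `AU E σ'`
(`∃ σ'`). `1 ∈ 𝒢`; closed under `exp B * ·`, `B ∈ 𝒮` (EXF; the adjoint of `τ ∘ σ` is `σ' ∘ τ'`); `IsUnit`
(bijective); logarithm: LGF. For `σ ∈ 𝒢` with the automorphism `σ`: WEX gives an orthonormal basis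
adapted to `map S F'`, transport by `φ⁻¹`: `OA ip (im σ F) k s lam`, and `ONE` gives `W` with
`∑ ‖lam j s_j - W s_j‖² ≤ δ² k² N`, that is `hs (W - w.L σ) ≤ δ² k² N ≤ δ² hs (w.L 1)`, since `F k k = E k`
(`FF.one`, `FF.mul`, `SG.gen`, induction), so all jumps are `≥ k` and `hs (w.L 1) = ∑ lam_j² ≥ k² N > 0`
(WEX last claim with `W = 0`, `σ = 1`). DIR: `ξ ∈ 𝒮`. CAB and SLP with `c = (1 - 3 δ) L`, `L² = hs (w.L 1)`:
`∑ lam_j mu_j ≥ (1 - 3δ) L`, `∑ mu_j² = 1`, `∑ lam_j² = L² ≤ Λ² k² N`. Take the family of `ξ` times `L`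
(`GW` of `L • W` at `L y`): `∑ (lam_j - L mu_j)² = 2 L² - 2 L ∑ lam_j mu_j ≤ 6 δ L² ≤ ε k² N`. The basis: the
`φ⁻¹` of the basis of CAB. -/
def StLVL : Prop := ∀ (A : Type) [CommRing A] [IsDomain A] [Algebra ℂ A]
  (E : ℕ → Submodule ℂ A) (ip : A → A → ℂ) (M Λ : ℕ) (F : ℕ → ℕ → Submodule ℂ A),
  SG E M → HF E ip → FF E Λ F → ONE E ip F → DIRC E ip F

end

end Pool.Agent.Helper68.KP
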